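import Mathlib

/-!
# CI, step 5: a polynomial of minimal degree which vanishes at `(s, t)`

If not the first alternative take `h ≠ 0` with `h(s,t) = 0` and `totalDegree h = e` minimal
(`Nat.find`), scaled so that some coefficient is `1`. `e ≥ 2`: degree `≤ 1` means
`h = c_0 + c_1 X_0 + c_2 X_1`, impossible by `hst`. `pderiv k h` has smaller total degree, so if
both vanish at `(s,t)` both are `0`; characteristic zero: `h` is a constant, so `0`.
-/

set_option autoImplicit false

namespace Pool.Agent.Helper64.CI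

open MvPolynomial

/-- a polynomial all of whose partial derivatives vanish is constant -/
private theorem MinH_const {k : Type*} [Field k] [CharZero k] {V : Type*}
    (P : MvPolynomial V k) (h : ∀ i, pderiv i P = 0) (m : V →₀ ℕ) (hm : m ≠ 0) :
    coeff m P = 0 := by
  classical
  obtain ⟨i, hi⟩ : ∃ i, m i ≠ 0 := by
    by_contra h1
    push Not at h1
    exact hm (Finsupp.ext h1)
  have h1 : m = (m - Finsupp.single i 1) + Finsupp.single i 1 := by
    rw [tsub_add_cancel_of_le]
    rw [Finsupp.single_le_iff]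
    omega
  have h2 := h i
  have h3 : coeff (m - Finsupp.single i 1) (pderiv i P) = 0 := by rw [h2, coeff_zero]
  rw [coeff_pderiv, ← h1] at h3
  rcases mul_eq_zero.1 h3 with h4 | h4
  · exact h4
  · exact absurd h4 (Nat.cast_add_one_ne_zero _)

private theorem MinH_pderiv_lt {k : Type*} [Field k] {V : Type*}
    (P : MvPolynomial V k) (i : V) (h : pderiv i P ≠ 0) :
    (pderiv i P).totalDegree < P.totalDegree := by
  classical
  have h1 : ∀ m ∈ (pderiv i P).support, (m.sum fun _ e => e) < P.totalDegree := by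
    intro m hm
    rw [mem_support_iff, coeff_pderiv] at hm
    have h2 : coeff (m + Finsupp.single i 1) P ≠ 0 := left_ne_zero_of_mul hm
    have h3 := le_totalDegree (mem_support_iff.2 h2)
    rw [Finsupp.sum_add_index' (fun _ => rfl) (fun _ _ _ => rfl),
      Finsupp.sum_single_index rfl] at h3
    omega
  obtain ⟨m, hm⟩ := support_nonempty.2 h
  have h2 : 0 < P.totalDegree := lt_of_le_of_lt (Nat.zero_le _) (h1 m hm)
  exact (Finset.sup_lt_iff h2).2 h1

/-- a polynomial of degree at most `1` in two variables -/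
private theorem MinH_lin {K : Type*} [Field K] (h : MvPolynomial (Fin 2) K)
    (hd : h.totalDegree ≤ 1) :
    h = C (coeff 0 h) + C (coeff (Finsupp.single 0 1) h) * X 0 +
      C (coeff (Finsupp.single 1 1) h) * X 1 := by
  classical
  ext m
  have e0 : (Finsupp.single (0 : Fin 2) 1 : Fin 2 →₀ ℕ) ≠ Finsupp.single 1 1 := by
    intro h1
    have := DFunLike.congr_fun h1 0
    simp at this
  have e1 : (Finsupp.single (0 : Fin 2) 1 : Fin 2 →₀ ℕ) ≠ 0 := by
    intro h1
    have := DFunLike.congr_fun h1 0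
    simp at this
  have e2 : (Finsupp.single (1 : Fin 2) 1 : Fin 2 →₀ ℕ) ≠ 0 := by
    intro h1
    have := DFunLike.congr_fun h1 1
    simp at this
  rw [coeff_add, coeff_add, coeff_C, coeff_C_mul, coeff_C_mul, coeff_X, coeff_X]
  by_cases h0 : 0 = m
  · subst h0
    rw [if_pos rfl, if_neg e1, if_neg e2]
    ring
  by_cases h1 : Finsupp.single (0 : Fin 2) 1 = m
  · subst h1
    rw [if_neg h0, if_pos rfl, if_neg e0.symm]
    ring
  by_cases h2 : Finsupp.single (1 : Fin 2) 1 = m
  · subst h2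
    rw [if_neg h0, if_neg h1, if_pos rfl]
    ring
  rw [if_neg h0, if_neg h1, if_neg h2]
  simp only [mul_zero, add_zero]
  by_contra hne
  have h3 := le_totalDegree (mem_support_iff.2 hne)
  have h4 : (m.sum fun _ e => e) = m 0 + m 1 := by
    rw [Finsupp.sum_fintype _ _ (fun _ => rfl), Fin.sum_univ_two]
  rw [h4] at h3
  have h5 : m 0 + m 1 ≤ 1 := h3.trans hd
  have h6 : (m 0 = 0 ∧ m 1 = 0) ∨ (m 0 = 1 ∧ m 1 = 0) ∨ (m 0 = 0 ∧ m 1 = 1) := by omega
  rcases h6 with ⟨a, b⟩ | ⟨a, b⟩ | ⟨a, b⟩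
  · apply h0
    ext i
    fin_cases i
    · simpa using a.symm
    · simpa using b.symm
  · apply h1
    ext i
    fin_cases i
    · simpa using a.symm
    · simpa using b.symm
  · apply h2
    ext i
    fin_cases i
    · simpa using a.symm
    · simpa using b.symm

theorem min_h {K Ω : Type*} [Field K] [CharZero K] [Field Ω] [Algebra K Ω] (s t : Ω)
    (hst : LinearIndependent K ![1, s, t]) (E : ℕ) :
    (∀ h : MvPolynomial (Fin 2) K, h.totalDegree ≤ E → aeval ![s, t] h = 0 → h = 0) ∨
    ∃ (e : ℕ) (h : MvPolynomial (Fin 2) K), 2 ≤ e ∧ e ≤ E ∧ h.totalDegree ≤ e ∧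
      aeval ![s, t] h = 0 ∧ (∃ m, coeff m h = 1) ∧
      (aeval ![s, t] (pderiv 0 h) ≠ 0 ∨ aeval ![s, t] (pderiv 1 h) ≠ 0) ∧
      ∀ h' : MvPolynomial (Fin 2) K, h'.totalDegree < e → aeval ![s, t] h' = 0 → h' = 0 := by
  classical
  by_cases H : ∀ h : MvPolynomial (Fin 2) K, h.totalDegree ≤ E → aeval ![s, t] h = 0 → h = 0
  · exact Or.inl H
  right
  push Not at H
  obtain ⟨h0, hd0, hz0, hn0⟩ := H
  have hex : ∃ n, ∃ h : MvPolynomial (Fin 2) K, h ≠ 0 ∧ h.totalDegree ≤ n ∧
      aeval ![s, t] h = 0 := ⟨h0.totalDegree, h0, hn0, le_rfl, hz0⟩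
  obtain ⟨h1, hn1, hd1, hz1⟩ := Nat.find_spec hex
  have hmin : ∀ h' : MvPolynomial (Fin 2) K, h'.totalDegree < Nat.find hex →
      aeval ![s, t] h' = 0 → h' = 0 := by
    intro h' hd' hz'
    by_contra hn'
    exact Nat.find_min hex hd' ⟨h', hn', le_rfl, hz'⟩
  have hE : Nat.find hex ≤ E := (Nat.find_min' hex ⟨h0, hn0, le_rfl, hz0⟩).trans hd0
  set e := Nat.find hex with he
  -- the scaled polynomial
  obtain ⟨m, hm⟩ := ne_zero_iff.1 hn1
  set c := coeff m h1 with hc
  have hh : ∃ h : MvPolynomial (Fin 2) K, h.totalDegree ≤ e ∧ aeval ![s, t] h = 0 ∧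
      coeff m h = 1 := by
    refine ⟨c⁻¹ • h1, (totalDegree_smul_le _ _).trans hd1, ?_, ?_⟩
    · rw [map_smul, hz1, smul_zero]
    · rw [coeff_smul, smul_eq_mul, ← hc, inv_mul_cancel₀ hm]
  obtain ⟨h, hd, hz, hcoe⟩ := hh
  have hne : h ≠ 0 := by
    rintro rfl
    rw [coeff_zero] at hcoe
    exact zero_ne_one hcoe
  have he2 : 2 ≤ e := by
    by_contra hlt
    have hd' : h.totalDegree ≤ 1 := by omega
    have hl := MinH_lin h hd'
    have hz' := hz
    rw [hl] at hz'
    simp only [map_add, map_mul, aeval_C, aeval_X, Matrix.cons_val_zero, Matrix.cons_val_one]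
      at hz'
    rw [Fintype.linearIndependent_iff] at hst
    have h3 := hst ![coeff 0 h, coeff (Finsupp.single 0 1) h, coeff (Finsupp.single 1 1) h] (by
      rw [Fin.sum_univ_three]
      simp only [Matrix.cons_val_zero, Matrix.cons_val_one, Matrix.cons_val, Algebra.smul_def,
        mul_one]
      exact hz')
    have a0 : coeff 0 h = 0 := h3 0
    have a1 : coeff (Finsupp.single 0 1) h = 0 := h3 1
    have a2 : coeff (Finsupp.single 1 1) h = 0 := h3 2
    apply hne
    rw [hl, a0, a1, a2]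
    simp
  refine ⟨e, h, he2, hE, hd, hz, ⟨m, hcoe⟩, ?_, hmin⟩
  by_contra hcon
  push Not at hcon
  obtain ⟨hp0, hp1⟩ := hcon
  have hp : ∀ i : Fin 2, pderiv i h = 0 := by
    intro i
    by_contra hi
    have h5 := MinH_pderiv_lt h i hi
    refine hi (hmin _ (by omega) ?_)
    fin_cases i
    · exact hp0
    · exact hp1
  have hconst : h = C (coeff 0 h) := by
    ext n
    rw [coeff_C]
    by_cases hn : 0 = n
    · subst hn
      rw [if_pos rfl]
    · rw [if_neg hn]
      exact MinH_const h hp n (Ne.symm hn)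
  rw [hconst, aeval_C] at hz
  have h6 : coeff 0 h = 0 := by
    have := (map_eq_zero (algebraMap K Ω)).1 hz
    exact this
  apply hne
  rw [hconst, h6, map_zero]

end Pool.Agent.Helper64.CI
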