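import Pool.Agent.Helper64.CI.Line

/-!
# CI, step 5: the plane

`plane_of`: with `G j k l = x_j A_kl - x_k A_jl + x_l A_jk` one has identically
`x_0 G b c l - x_b G 0 c l + x_c G 0 b l - x_l G 0 b c = 0`, so (`x_0 = 1`)
`x_l = (G b c l - x_b G 0 c l + x_c G 0 b l) / G 0 b c`.
`lin_or`: if `u + v x_b + w x_c = 0`, `u, v, w ∈ B` not all `0`, then `v ≠ 0` or `w ≠ 0`; say
`w ≠ 0`: `x_c = - u / w - (v / w) x_b`, so `x = U + x_b V` with `U, V ∈ B^(N+1)`; if `V` and `U` are
proportional or `V = 0` then (`x_0 = 1`, `x_b = x_b`) impossible: `U_0 = 1, U_b = 0, V_0 = 0,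
V_b = 1`. `line_mem` with `y = V`: `pl x V j l = U_j V_l - U_l V_j ∈ B`, and `= 1` for `0, b`.
The same with `b` and `c` exchanged.
-/

set_option autoImplicit false

namespace Pool.Agent.Helper64.CI

open scoped BigOperators
open MvPolynomial
open Pool.Agent.Helper8.LG (Bdd form mon Ix)
open Pool.Agent.Helper49.LN (cP mo hf pl)

theorem plane_of {Ω : Type*} [Field Ω] {N : ℕ} (B : Subfield Ω) (x : Fin (N + 1) → Ω)
    (hx : x 0 = 1) (A : Fin (N + 1) → Fin (N + 1) → Ω) (hA : ∀ j k, A j k = - A k j)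
    (hA0 : ∀ j, A j j = 0)
    (hG : ∀ j k l, x j * A k l - x k * A j l + x l * A j k ∈ B) (b c : Fin (N + 1))
    (hbc : x 0 * A b c - x b * A 0 c + x c * A 0 b ≠ 0) :
    ∃ p : Fin 3 → Fin (N + 1) → Ω, Pl B x b c p := by
  have hb : b ≠ 0 := by
    rintro rfl
    apply hbc
    rw [hA0]
    ring
  have hc : c ≠ 0 := by
    rintro rfl
    apply hbc
    rw [hA0, hA b 0]
    ring
  have hne : b ≠ c := by
    rintro rfl
    apply hbc
    rw [hA0]
    ring
  set g : Ω := x 0 * A b c - x b * A 0 c + x c * A 0 b with hg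
  have hgB : g ∈ B := hG 0 b c
  refine ⟨![fun l => (x b * A c l - x c * A b l + x l * A b c) / g,
    fun l => -(x 0 * A c l - x c * A 0 l + x l * A 0 c) / g,
    fun l => (x 0 * A b l - x b * A 0 l + x l * A 0 b) / g], ⟨hb, hc, hne, ?_, ?_, ?_, ?_, ?_⟩⟩
  · intro k l
    fin_cases k
    · exact B.div_mem (hG b c l) hgB
    · exact B.div_mem (B.neg_mem (hG 0 c l)) hgB
    · exact B.div_mem (hG 0 b l) hgB
  · intro l
    show x l = (x b * A c l - x c * A b l + x l * A b c) / g +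
      -(x 0 * A c l - x c * A 0 l + x l * A 0 c) / g * x b +
      (x 0 * A b l - x b * A 0 l + x l * A 0 b) / g * x c
    field_simp
    rw [hg, hx]
    ring
  · intro k
    fin_cases k
    · show (x b * A c 0 - x c * A b 0 + x 0 * A b c) / g = 1
      rw [div_eq_one_iff_eq hbc, hg, hA c 0, hA b 0]
      ring
    · show -(x 0 * A c 0 - x c * A 0 0 + x 0 * A 0 c) / g = 0
      rw [div_eq_zero_iff]
      left
      rw [hA c 0, hA0]
      ring
    · show (x 0 * A b 0 - x b * A 0 0 + x 0 * A 0 b) / g = 0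
      rw [div_eq_zero_iff]
      left
      rw [hA b 0, hA0]
      ring
  · intro k
    fin_cases k
    · show (x b * A c b - x c * A b b + x b * A b c) / g = 0
      rw [div_eq_zero_iff]
      left
      rw [hA c b, hA0]
      ring
    · show -(x 0 * A c b - x c * A 0 b + x b * A 0 c) / g = 1
      rw [div_eq_one_iff_eq hbc, hg, hA c b]
      ring
    · show (x 0 * A b b - x b * A 0 b + x b * A 0 b) / g = 0
      rw [div_eq_zero_iff]
      left
      rw [hA0]
      ring
  · intro k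
    fin_cases k
    · show (x b * A c c - x c * A b c + x c * A b c) / g = 0
      rw [div_eq_zero_iff]
      left
      rw [hA0]
      ring
    · show -(x 0 * A c c - x c * A 0 c + x c * A 0 c) / g = 0
      rw [div_eq_zero_iff]
      left
      rw [hA0]
      ring
    · show (x 0 * A b c - x b * A 0 c + x c * A 0 b) / g = 1
      rw [div_eq_one_iff_eq hbc]

variable {Ω : Type*} [Field Ω] [CharZero Ω] {N r : ℕ} {d : Fin r → ℕ}
  {D : Ix (Fin (N + 1)) d → Derivation ℤ Ω Ω} {a : Ix (Fin (N + 1)) d → Ω} {B : Subfield Ω}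
  {x : Fin (N + 1) → Ω}

theorem PlaneOf_aux (h : AlgC D a B) (hs : 2 * N < ∑ i, (d i + 1) + 2) (hx : x 0 = 1)
    (hz : ∀ i, form (fun J => a ⟨i, J⟩) x = 0) (U V : Fin (N + 1) → Ω) (t : Ω)
    (hU : ∀ l, U l ∈ B) (hV : ∀ l, V l ∈ B) (he : ∀ l, x l = U l + t * V l) (j l : Fin (N + 1))
    (hne : U j * V l - U l * V j ≠ 0) : ∀ l, x l ∈ B := by
  have hpl : ∀ j l, pl x V j l = U j * V l - U l * V j := by
    intro j l
    unfold pl
    rw [he j, he l]
    ring
  refine line_mem h hs hx hz V ⟨j, l, ?_⟩ ?_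
  · rw [hpl]
    exact hne
  · intro j l
    rw [hpl]
    exact B.sub_mem (B.mul_mem (hU j) (hV l)) (B.mul_mem (hU l) (hV j))

theorem lin_or (h : AlgC D a B) (hs : 2 * N < ∑ i, (d i + 1) + 2) (hx : x 0 = 1)
    (hz : ∀ i, form (fun J => a ⟨i, J⟩) x = 0) {b c : Fin (N + 1)}
    {p : Fin 3 → Fin (N + 1) → Ω} (hp : Pl B x b c p) :
    (∀ l, x l ∈ B) ∨ LinearIndependent B ![(1 : Ω), x b, x c] := by
  by_cases hli : LinearIndependent B ![(1 : Ω), x b, x c]
  · exact Or.inr hli
  left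
  rw [Fintype.not_linearIndependent_iff] at hli
  obtain ⟨q, hq, i0, hi0⟩ := hli
  have hq' : (q 0 : Ω) + q 1 * x b + q 2 * x c = 0 := by
    rw [Fin.sum_univ_three] at hq
    simp only [Matrix.cons_val_zero, Matrix.cons_val_one, Matrix.cons_val_two, Matrix.cons_val,
      Matrix.head_cons, Matrix.tail_cons, Subfield.smul_def, smul_eq_mul, mul_one] at hq
    exact hq
  have h00 : p 0 0 = 1 := by rw [hp.n0, if_pos rfl]
  have h10 : p 1 0 = 0 := by rw [hp.n0, if_neg (by decide)]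
  have h20 : p 2 0 = 0 := by rw [hp.n0, if_neg (by decide)]
  have h0b : p 0 b = 0 := by rw [hp.nb, if_neg (by decide)]
  have h1b : p 1 b = 1 := by rw [hp.nb, if_pos rfl]
  have h2b : p 2 b = 0 := by rw [hp.nb, if_neg (by decide)]
  have h0c : p 0 c = 0 := by rw [hp.nc, if_neg (by decide)]
  have h1c : p 1 c = 0 := by rw [hp.nc, if_neg (by decide)]
  have h2c : p 2 c = 1 := by rw [hp.nc, if_pos rfl]
  by_cases hw : (q 2 : Ω) = 0
  · by_cases hv : (q 1 : Ω) = 0
    · exfalso
      rw [hw, hv] at hq'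
      have h0 : (q 0 : Ω) = 0 := by linear_combination hq'
      apply hi0
      fin_cases i0
      · exact Subtype.ext h0
      · exact Subtype.ext hv
      · exact Subtype.ext hw
    · have hxb : x b ∈ B := by
        have e : x b = -(q 0 : Ω) / q 1 := by
          rw [eq_div_iff hv]
          rw [hw] at hq'
          linear_combination hq'
        rw [e]
        exact B.div_mem (B.neg_mem (q 0).2) (q 1).2
      refine PlaneOf_aux h hs hx hz (fun l => p 0 l + p 1 l * x b) (p 2) (x c)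
        (fun l => B.add_mem (hp.mem 0 l) (B.mul_mem (hp.mem 1 l) hxb)) (hp.mem 2) ?_ 0 c ?_
      · intro l
        rw [hp.eq l]
        ring
      · show (p 0 0 + p 1 0 * x b) * p 2 c - (p 0 c + p 1 c * x b) * p 2 0 ≠ 0
        rw [h00, h10, h2c, h20]
        simp
  · refine PlaneOf_aux h hs hx hz (fun l => p 0 l - q 0 / q 2 * p 2 l)
      (fun l => p 1 l - q 1 / q 2 * p 2 l) (x b)
      (fun l => B.sub_mem (hp.mem 0 l) (B.mul_mem (B.div_mem (q 0).2 (q 2).2) (hp.mem 2 l)))
      (fun l => B.sub_mem (hp.mem 1 l) (B.mul_mem (B.div_mem (q 1).2 (q 2).2) (hp.mem 2 l)))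
      ?_ 0 b ?_
    · intro l
      have e : x c = -(q 0 : Ω) / q 2 - q 1 / q 2 * x b := by
        field_simp
        linear_combination hq'
      rw [hp.eq l]
      show p 0 l + p 1 l * x b + p 2 l * x c =
        p 0 l - q 0 / q 2 * p 2 l + x b * (p 1 l - q 1 / q 2 * p 2 l)
      rw [e]
      ring
    · show (p 0 0 - q 0 / q 2 * p 2 0) * (p 1 b - q 1 / q 2 * p 2 b) -
        (p 0 b - q 0 / q 2 * p 2 b) * (p 1 0 - q 1 / q 2 * p 2 0) ≠ 0
      rw [h00, h20, h1b, h2b, h0b, h10]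
      simp

end Pool.Agent.Helper64.CI
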