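import Pool.Agent.Helper64.CI.KV

/-!
# CI, step 5: dimensions of the powers of `⟨1, s, t⟩`

`pow_low`: induction with `kv` (`U = ⟨1, s, t⟩` has dimension 3; `U ^ (n+1) = U * U ^ n`;
`finrank K (U ^ 0) = 1`). `pow_low'`: start at `n = 2`: the six products of degree at most `2` are
independent by `h2` (apply it to the polynomial `c_0 + c_1 X_0 + c_2 X_1 + c_3 X_0^2 + ..`).
-/

set_option autoImplicit false

namespace Pool.Agent.Helper64.CI

open MvPolynomial

variable {K Ω : Type*} [Field K] [Field Ω] [Algebra K Ω]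

/-- the space `⟨1, s, t⟩` -/
private abbrev Pow_U (K : Type*) {Ω : Type*} [Field K] [Field Ω] [Algebra K Ω] (s t : Ω) :
    Submodule K Ω := Submodule.span K ({1, s, t} : Set Ω)

private theorem Pow_one (s t : Ω) : (1 : Ω) ∈ Pow_U K s t := Submodule.subset_span (by simp)

private theorem Pow_s (s t : Ω) : s ∈ Pow_U K s t := Submodule.subset_span (by simp)

private theorem Pow_t (s t : Ω) : t ∈ Pow_U K s t := Submodule.subset_span (by simp)

private theorem Pow_one_mem (s t : Ω) (n : ℕ) : (1 : Ω) ∈ (Pow_U K s t) ^ n := by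
  have h := Submodule.pow_mem_pow (Pow_U K s t) (Pow_one s t) n
  rwa [one_pow] at h

private theorem Pow_ne (s t : Ω) (n : ℕ) : (Pow_U K s t) ^ n ≠ ⊥ := by
  intro h
  have h1 := Pow_one_mem (K := K) s t n
  rw [h, Submodule.mem_bot] at h1
  exact one_ne_zero h1

private theorem Pow_fg (s t : Ω) (n : ℕ) : ((Pow_U K s t) ^ n).FG :=
  Submodule.FG.pow (Submodule.fg_span (by simp)) n

private theorem Pow_rank (s t : Ω) (hst : LinearIndependent K ![1, s, t]) :
    Module.finrank K ↥(Pow_U K s t) = 3 := by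
  have h1 := finrank_span_eq_card hst
  have h2 : Set.range ![1, s, t] = ({1, s, t} : Set Ω) := by
    ext z
    simp only [Set.mem_range, Set.mem_insert_iff, Set.mem_singleton_iff]
    constructor
    · rintro ⟨i, rfl⟩
      fin_cases i <;> simp
    · rintro (rfl | rfl | rfl)
      · exact ⟨0, rfl⟩
      · exact ⟨1, rfl⟩
      · exact ⟨2, rfl⟩
  rw [h2, Fintype.card_fin] at h1
  exact h1

private theorem Pow_step (hcl : ∀ z : Ω, IsAlgebraic K z → z ∈ (algebraMap K Ω).range) (s t : Ω)
    (hst : LinearIndependent K ![1, s, t]) (n : ℕ) :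
    Module.finrank K ↥((Pow_U K s t) ^ n) + 2 ≤ Module.finrank K ↥((Pow_U K s t) ^ (n + 1)) := by
  have : Module.Finite K ↥(Pow_U K s t) := by
    have h := Pow_fg (K := K) s t 1
    rw [pow_one] at h
    exact Module.Finite.iff_fg.2 h
  have : Module.Finite K ↥((Pow_U K s t) ^ n) := Module.Finite.iff_fg.2 (Pow_fg s t n)
  have hU : Pow_U K s t ≠ ⊥ := by
    have h := Pow_ne (K := K) s t 1
    rwa [pow_one] at h
  have h1 := kv hcl (Pow_U K s t) ((Pow_U K s t) ^ n) hU (Pow_ne s t n)
  rw [Pow_rank s t hst] at h1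
  rw [pow_succ']
  omega

theorem pow_low (hcl : ∀ z : Ω, IsAlgebraic K z → z ∈ (algebraMap K Ω).range) (s t : Ω)
    (hst : LinearIndependent K ![1, s, t]) (n : ℕ) :
    2 * n + 1 ≤ Module.finrank K ↥((Submodule.span K ({1, s, t} : Set Ω)) ^ n) := by
  induction n with
  | zero =>
    have : Module.Finite K ↥((Submodule.span K ({1, s, t} : Set Ω)) ^ 0) :=
      Module.Finite.iff_fg.2 (Pow_fg s t 0)
    have h1 : Nontrivial ↥((Submodule.span K ({1, s, t} : Set Ω)) ^ 0) :=
      Submodule.nontrivial_iff_ne_bot.2 (Pow_ne s t 0)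
    have h2 := Module.finrank_pos (R := K) (M := ↥((Submodule.span K ({1, s, t} : Set Ω)) ^ 0))
    omega
  | succ n ih =>
    have h1 : Module.finrank K ↥((Submodule.span K ({1, s, t} : Set Ω)) ^ n) + 2 ≤
        Module.finrank K ↥((Submodule.span K ({1, s, t} : Set Ω)) ^ (n + 1)) :=
      Pow_step hcl s t hst n
    omega

/-- the exponents of the monomials of degree at most two -/
private def Pow_E : Fin 6 → ℕ × ℕ := ![(0, 0), (1, 0), (0, 1), (2, 0), (1, 1), (0, 2)]

private theorem Pow_E_inj : Function.Injective Pow_E := by decide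

private theorem Pow_E_le (i : Fin 6) : (Pow_E i).1 + (Pow_E i).2 ≤ 2 := by
  revert i
  decide

private noncomputable def Pow_e (i : Fin 6) : Fin 2 →₀ ℕ :=
  Finsupp.single 0 (Pow_E i).1 + Finsupp.single 1 (Pow_E i).2

private theorem Pow_e_inj : Function.Injective Pow_e := by
  intro i j h
  apply Pow_E_inj
  have h0 := DFunLike.congr_fun h 0
  have h1 := DFunLike.congr_fun h 1
  simp only [Pow_e, Finsupp.add_apply, Finsupp.single_apply] at h0 h1
  simp at h0 h1
  exact Prod.ext h0 h1

private theorem Pow_mem (s t : Ω) (i : Fin 6) :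
    s ^ (Pow_E i).1 * t ^ (Pow_E i).2 ∈ (Pow_U K s t) ^ 2 := by
  have h1 := Submodule.pow_mem_pow (Pow_U K s t) (Pow_s s t) (Pow_E i).1
  have h2 := Submodule.pow_mem_pow (Pow_U K s t) (Pow_t s t) (Pow_E i).2
  have h3 := Pow_one_mem (K := K) s t (2 - ((Pow_E i).1 + (Pow_E i).2))
  have h4 := Submodule.mul_mem_mul (Submodule.mul_mem_mul h1 h2) h3
  rw [← pow_add, ← pow_add, Nat.add_sub_of_le (Pow_E_le i), mul_one] at h4
  exact h4

private theorem Pow_li (s t : Ω)
    (h2 : ∀ h : MvPolynomial (Fin 2) K, h.totalDegree ≤ 2 → aeval ![s, t] h = 0 → h = 0) :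
    LinearIndependent K (fun i : Fin 6 => s ^ (Pow_E i).1 * t ^ (Pow_E i).2) := by
  classical
  rw [Fintype.linearIndependent_iff]
  intro c hc
  set h : MvPolynomial (Fin 2) K := ∑ i, monomial (Pow_e i) (c i) with hh
  have hdeg : h.totalDegree ≤ 2 := by
    refine (totalDegree_finsetSum _ _).trans (Finset.sup_le fun i _ => ?_)
    refine (totalDegree_monomial_le _ _).trans ?_
    have h5 : (Pow_e i).degree = (Pow_E i).1 + (Pow_E i).2 := by
      simp only [Pow_e, map_add, Finsupp.degree_single]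
    have h6 := Pow_E_le i
    rw [← h5] at h6
    exact h6
  have hev : aeval ![s, t] h = 0 := by
    rw [hh, map_sum, ← hc]
    refine Finset.sum_congr rfl fun i _ => ?_
    rw [aeval_monomial, Algebra.smul_def, Pow_e, Finsupp.prod_add_index' (by simp)
      (fun a b c => pow_add _ _ _), Finsupp.prod_single_index (by simp),
      Finsupp.prod_single_index (by simp)]
    simp
  have h0 := h2 h hdeg hev
  intro j
  have h3 : coeff (Pow_e j) h = c j := by
    rw [hh, coeff_sum]
    rw [Finset.sum_eq_single j]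
    · rw [coeff_monomial, if_pos rfl]
    · intro i _ hij
      rw [coeff_monomial, if_neg fun h => hij (Pow_e_inj h)]
    · intro hj
      exact absurd (Finset.mem_univ j) hj
  rw [← h3, h0, coeff_zero]

theorem pow_low' (hcl : ∀ z : Ω, IsAlgebraic K z → z ∈ (algebraMap K Ω).range) (s t : Ω)
    (hst : LinearIndependent K ![1, s, t])
    (h2 : ∀ h : MvPolynomial (Fin 2) K, h.totalDegree ≤ 2 → aeval ![s, t] h = 0 → h = 0)
    (n : ℕ) (hn : 2 ≤ n) :
    2 * n + 2 ≤ Module.finrank K ↥((Submodule.span K ({1, s, t} : Set Ω)) ^ n) := by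
  induction n, hn using Nat.le_induction with
  | base =>
    have : Module.Finite K ↥((Submodule.span K ({1, s, t} : Set Ω)) ^ 2) :=
      Module.Finite.iff_fg.2 (Pow_fg s t 2)
    have h3 := finrank_span_eq_card (Pow_li s t h2)
    rw [Fintype.card_fin] at h3
    have h4 : Submodule.span K (Set.range fun i : Fin 6 => s ^ (Pow_E i).1 * t ^ (Pow_E i).2) ≤
        (Submodule.span K ({1, s, t} : Set Ω)) ^ 2 := by
      rw [Submodule.span_le]
      rintro _ ⟨i, rfl⟩
      exact Pow_mem s t i
    have h5 := Submodule.finrank_mono h4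
    omega
  | succ n _ ih =>
    have h1 : Module.finrank K ↥((Submodule.span K ({1, s, t} : Set Ω)) ^ n) + 2 ≤
        Module.finrank K ↥((Submodule.span K ({1, s, t} : Set Ω)) ^ (n + 1)) :=
      Pow_step hcl s t hst n
    omega

end Pool.Agent.Helper64.CI
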