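import Pool.Agent.Helper64.CI.Defs
import Pool.Agent.Helper6.QS.Der

/-!
# CI, step 5: the kernel

`der_form`: for every derivation `δ`: `δ (F_i(x)) = ∑_J δ(a_(i,J)) x^J + ∑_l ∂_l F_i(x) δ(x_l)`
(`form`, `Derivation.leibniz`, `ev_der_mo`, `ev_mon_eq` of `Helper6/QS/Ev.lean`, as in
`dv_normal`).
`dg_form`: with `δ = dg D g` and `dual`: `0 = form (g_i) x + ∑_l ∂_l F_i(x) δ(x_l)`.
If `dg D g` kills all `p k l` then `δ(x_l) = p_1l δ(x_b) + p_2l δ(x_c)`, so
`form (g_i) x = - dd (p 1) δ(x_b) - dd (p 2) δ(x_c)`: `ker_plane`.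
`ker_curve`: by `exists_der` (`Helper6/QS/Der.lean`, applied to `x_b` or `x_c`, which is not
algebraic over `B` by `alg`) there is a derivation `δ'` over `B` with `(δ' x_b, δ' x_c) ≠ 0`. Then
`dd (p 1) δ'(x_b) + dd (p 2) δ'(x_c) = 0` (`der_form` for `δ'`), `f_0 δ'(x_b) + f_1 δ'(x_c) = 0` and
`f_0 δ(x_b) + f_1 δ(x_c) = 0`, `f_k` the values of `pderiv k f` (derivation of `aeval f = 0`; the
coefficients are killed by both), `(f_0, f_1) ≠ 0`: so `(δ x_b, δ x_c)` is a multiple of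
`(δ' x_b, δ' x_c)`.
-/

set_option autoImplicit false

namespace Pool.Agent.Helper64.CI

open scoped BigOperators
open MvPolynomial
open Pool.Agent.Helper8.LG (Bdd form mon Ix)
open Pool.Agent.Helper49.LN (cP mo hf pl)
open Pool.Agent.Helper10.CI (Fp)

variable {Ω : Type*} [Field Ω] {N r : ℕ} {d : Fin r → ℕ}
  {D : Ix (Fin (N + 1)) d → Derivation ℤ Ω Ω} {a : Ix (Fin (N + 1)) d → Ω} {B : Subfield Ω}
  {x : Fin (N + 1) → Ω}

private theorem Ker_eval_pd (a : Ix (Fin (N + 1)) d → Ω) (x : Fin (N + 1) → Ω) (i : Fin r)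
    (l : Fin (N + 1)) : eval x (pderiv l (Fp a i)) =
      ∑ J : Sym (Fin (N + 1)) (d i), a ⟨i, J⟩ * eval x (pderiv l (mo Ω (J : Multiset (Fin (N + 1))))) := by
  unfold Fp
  rw [map_sum, map_sum]
  refine Finset.sum_congr rfl fun J _ => ?_
  rw [Derivation.map_smul, smul_eval]

theorem der_form (δ : Derivation ℤ Ω Ω) (a : Ix (Fin (N + 1)) d → Ω) (x : Fin (N + 1) → Ω)
    (i : Fin r) : δ (form (fun J => a ⟨i, J⟩) x) =
      form (fun J => δ (a ⟨i, J⟩)) x + ∑ l, δ (x l) * eval x (pderiv l (Fp a i)) := by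
  unfold form
  rw [map_sum]
  have h1 : ∀ J : Sym (Fin (N + 1)) (d i), δ (a ⟨i, J⟩ * Pool.Agent.Helper8.LG.mon x J) =
      δ (a ⟨i, J⟩) * Pool.Agent.Helper8.LG.mon x J +
        ∑ l, δ (x l) * (a ⟨i, J⟩ *
          eval x (pderiv l (mo Ω (J : Multiset (Fin (N + 1)))))) := by
    intro J
    rw [Derivation.leibniz, smul_eq_mul, smul_eq_mul, Pool.Agent.Helper6.QS.ev_mon_eq,
      Pool.Agent.Helper6.QS.ev_der_mo, Finset.mul_sum, add_comm]
    congr 1
    · rw [mul_comm]
    · refine Finset.sum_congr rfl fun l _ => ?_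
      ring
  rw [Finset.sum_congr rfl fun J _ => h1 J, Finset.sum_add_distrib, Finset.sum_comm]
  congr 1
  refine Finset.sum_congr rfl fun l _ => ?_
  rw [Ker_eval_pd, Finset.mul_sum]

theorem dg_form (h : AlgC D a B) (hz : ∀ i, form (fun J => a ⟨i, J⟩) x = 0)
    (g : Ix (Fin (N + 1)) d → Ω) (i : Fin r) :
    form (fun J => g ⟨i, J⟩) x + ∑ l, dg D g (x l) * eval x (pderiv l (Fp a i)) = 0 := by
  classical
  have h1 := der_form (dg D g) a x i
  rw [hz i, map_zero] at h1
  have h2 : (fun J : Sym (Fin (N + 1)) (d i) => dg D g (a ⟨i, J⟩)) = fun J => g ⟨i, J⟩ := by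
    funext J
    rw [dg_apply]
    simp only [h.dual]
    simp
  rw [h2] at h1
  exact h1.symm

private theorem Ker_sum (δ : Derivation ℤ Ω Ω) {b c : Fin (N + 1)} {p : Fin 3 → Fin (N + 1) → Ω}
    (hp : Pl B x b c p) (h1 : ∀ k l, δ (p k l) = 0) (a : Ix (Fin (N + 1)) d → Ω) (i : Fin r) :
    ∑ l, δ (x l) * eval x (pderiv l (Fp a i)) =
      dd a x i (p 1) * δ (x b) + dd a x i (p 2) * δ (x c) := by
  have h2 : ∀ l, δ (x l) = p 1 l * δ (x b) + p 2 l * δ (x c) := by
    intro l
    conv_lhs => rw [hp.eq l]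
    rw [map_add, map_add, Derivation.leibniz, Derivation.leibniz, h1, h1, h1, smul_zero, smul_zero,
      smul_eq_mul, smul_eq_mul]
    ring
  unfold dd
  rw [Finset.sum_mul, Finset.sum_mul, ← Finset.sum_add_distrib]
  refine Finset.sum_congr rfl fun l _ => ?_
  rw [h2 l]
  ring

theorem ker_plane (h : AlgC D a B) (hz : ∀ i, form (fun J => a ⟨i, J⟩) x = 0)
    {b c : Fin (N + 1)} {p : Fin 3 → Fin (N + 1) → Ω} (hp : Pl B x b c p)
    (hs : ∀ i, dd a x i (p 1) = 0 ∧ dd a x i (p 2) = 0) (g : Ix (Fin (N + 1)) d → Ω)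
    (h1 : ∀ k l, dg D g (p k l) = 0) (i : Fin r) : form (fun J => g ⟨i, J⟩) x = 0 := by
  have h2 := dg_form h hz g i
  rw [Ker_sum (dg D g) hp h1 a i, (hs i).1, (hs i).2, zero_mul, zero_mul, add_zero,
    add_zero] at h2
  exact h2

/-- the derivative of the value of a polynomial with constant coefficients -/
private theorem Ker_aeval (δ : Derivation ℤ Ω Ω) (v : Fin 2 → Ω) (f : MvPolynomial (Fin 2) B)
    (hf : ∀ m, δ ((coeff m f : B) : Ω) = 0) :
    δ (aeval v f) = ∑ k, aeval v (pderiv k f) * δ (v k) := by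
  let T : Subsemiring (MvPolynomial (Fin 2) B) :=
    { carrier := {f | δ (aeval v f) = ∑ k, aeval v (pderiv k f) * δ (v k)}
      mul_mem' := by
        intro f g hf hg
        change δ (aeval v (f * g)) = _
        have hf' : δ (aeval v f) = ∑ k, aeval v (pderiv k f) * δ (v k) := hf
        have hg' : δ (aeval v g) = ∑ k, aeval v (pderiv k g) * δ (v k) := hg
        rw [map_mul, Derivation.leibniz, hf', hg', smul_eq_mul, smul_eq_mul, Finset.mul_sum,
          Finset.mul_sum, ← Finset.sum_add_distrib]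
        refine Finset.sum_congr rfl fun k _ => ?_
        rw [Derivation.leibniz, smul_eq_mul, smul_eq_mul, map_add, map_mul, map_mul]
        ring
      one_mem' := by
        change δ (aeval v 1) = _
        rw [map_one, Derivation.map_one_eq_zero]
        symm
        refine Finset.sum_eq_zero fun k _ => ?_
        rw [Derivation.map_one_eq_zero, map_zero, zero_mul]
      add_mem' := by
        intro f g hf hg
        change δ (aeval v (f + g)) = _
        have hf' : δ (aeval v f) = ∑ k, aeval v (pderiv k f) * δ (v k) := hf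
        have hg' : δ (aeval v g) = ∑ k, aeval v (pderiv k g) * δ (v k) := hg
        rw [map_add, map_add, hf', hg', ← Finset.sum_add_distrib]
        refine Finset.sum_congr rfl fun k _ => ?_
        rw [map_add, map_add, add_mul]
      zero_mem' := by
        change δ (aeval v 0) = _
        rw [map_zero, map_zero]
        symm
        refine Finset.sum_eq_zero fun k _ => ?_
        rw [map_zero, map_zero, zero_mul] }
  have hT : ∀ g, g ∈ T ↔ δ (aeval v g) = ∑ k, aeval v (pderiv k g) * δ (v k) := fun _ => Iff.rfl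
  have hX : ∀ k : Fin 2, (X k : MvPolynomial (Fin 2) B) ∈ T := by
    intro k
    rw [hT, aeval_X, Finset.sum_eq_single k]
    · rw [pderiv_X_self, map_one, one_mul]
    · intro j _ hj
      rw [pderiv_X_of_ne (Ne.symm hj), map_zero, zero_mul]
    · intro hk
      exact absurd (Finset.mem_univ k) hk
  have hC : ∀ m, (C (coeff m f) : MvPolynomial (Fin 2) B) ∈ T := by
    intro m
    rw [hT, aeval_C]
    have h1 : δ (algebraMap B Ω (coeff m f)) = 0 := hf m
    rw [h1]
    symm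
    refine Finset.sum_eq_zero fun k _ => ?_
    rw [pderiv_C, map_zero, zero_mul]
  rw [← hT, f.as_sum]
  refine sum_mem fun m _ => ?_
  rw [monomial_eq]
  exact mul_mem (hC m) (prod_mem fun k _ => pow_mem (hX k) _)

theorem ker_curve [CharZero Ω] (h : AlgC D a B) (hz : ∀ i, form (fun J => a ⟨i, J⟩) x = 0)
    {b c : Fin (N + 1)} {p : Fin 3 → Fin (N + 1) → Ω} (hp : Pl B x b c p)
    (hn : x b ∉ B ∨ x c ∉ B) (f : MvPolynomial (Fin 2) B) (hf : aeval ![x b, x c] f = 0)
    (hf' : aeval ![x b, x c] (pderiv 0 f) ≠ 0 ∨ aeval ![x b, x c] (pderiv 1 f) ≠ 0)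
    (g : Ix (Fin (N + 1)) d → Ω) (h1 : ∀ k l, dg D g (p k l) = 0)
    (h2 : ∀ m, dg D g ((coeff m f : B) : Ω) = 0) (i : Fin r) :
    form (fun J => g ⟨i, J⟩) x = 0 := by
  obtain ⟨δ', hδB, hδ⟩ : ∃ δ' : Derivation ℤ Ω Ω, (∀ z ∈ B, δ' z = 0) ∧
      (δ' (x b) ≠ 0 ∨ δ' (x c) ≠ 0) := by
    rcases hn with hn | hn
    · obtain ⟨δ', h3, h4⟩ := Pool.Agent.Helper6.QS.exists_der B (x b) fun h5 => hn (h.alg _ h5)
      exact ⟨δ', h3, Or.inl h4⟩
    · obtain ⟨δ', h3, h4⟩ := Pool.Agent.Helper6.QS.exists_der B (x c) fun h5 => hn (h.alg _ h5)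
      exact ⟨δ', h3, Or.inr h4⟩
  set f0 := aeval ![x b, x c] (pderiv 0 f) with hf0
  set f1 := aeval ![x b, x c] (pderiv 1 f) with hf1
  have e1 : f0 * δ' (x b) + f1 * δ' (x c) = 0 := by
    have h3 := Ker_aeval δ' ![x b, x c] f fun m => hδB _ (coeff m f).2
    rw [hf, map_zero, Fin.sum_univ_two] at h3
    exact h3.symm
  have e2 : f0 * dg D g (x b) + f1 * dg D g (x c) = 0 := by
    have h3 := Ker_aeval (dg D g) ![x b, x c] f h2
    rw [hf, map_zero, Fin.sum_univ_two] at h3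
    exact h3.symm
  have e3 : dd a x i (p 1) * δ' (x b) + dd a x i (p 2) * δ' (x c) = 0 := by
    have h3 := der_form δ' a x i
    rw [hz i, map_zero, Ker_sum δ' hp (fun k l => hδB _ (hp.mem k l)) a i] at h3
    have h4 : (fun J : Sym (Fin (N + 1)) (d i) => δ' (a ⟨i, J⟩)) = fun _ => 0 := by
      funext J
      exact hδB _ (h.mem _)
    rw [h4] at h3
    have h5 : form (fun _ : Sym (Fin (N + 1)) (d i) => (0 : Ω)) x = 0 := by
      unfold form
      refine Finset.sum_eq_zero fun J _ => ?_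
      rw [zero_mul]
    rw [h5, zero_add] at h3
    exact h3.symm
  have e4 : dg D g (x b) * δ' (x c) = dg D g (x c) * δ' (x b) := by
    rcases hf' with h3 | h3
    · refine mul_left_cancel₀ h3 ?_
      linear_combination δ' (x c) * e2 - dg D g (x c) * e1
    · refine mul_left_cancel₀ h3 ?_
      linear_combination (-δ' (x b)) * e2 + dg D g (x b) * e1
  have e5 : dd a x i (p 1) * dg D g (x b) + dd a x i (p 2) * dg D g (x c) = 0 := by
    rcases hδ with h3 | h3
    · refine mul_left_cancel₀ h3 ?_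
      linear_combination dg D g (x b) * e3 - dd a x i (p 2) * e4
    · refine mul_left_cancel₀ h3 ?_
      linear_combination dg D g (x c) * e3 + dd a x i (p 1) * e4
  have h6 := dg_form h hz g i
  rw [Ker_sum (dg D g) hp h1 a i, e5, add_zero] at h6
  exact h6

end Pool.Agent.Helper64.CI
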