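import Pool.Agent.Helper64.CI.Fr
import Pool.Agent.Helper64.CI.Ker

/-!
# CI, step 5: a generic quadric in `P^4` contains no rational plane

Let `f` be the polynomial of `fr_ex` (total degree at most `2`, `f(x_b, x_c) = F_i(x) = 0`). It is
enough to see `f ≠ 0`. Suppose `f = 0`, so `F_i(z_0 p_0 + z_1 p_1 + z_2 p_2) = 0` for all `z` (∗).
`N = 4`: besides `0, b, c` there are two indices `l = u, v`. The two values
`∂_l F_i(z_0 p_0 + z_1 p_1 + z_2 p_2)`, `l = u, v`, are linear forms in `z ∈ B^3` (`d i = 2`), so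
there is `z ∈ B^3`, `z ≠ 0`, at which both vanish. Put `P = z_0 p_0 + z_1 p_1 + z_2 p_2`, a point
with coordinates in `B`, not `0` (`P_0 = z_0`, `P_b = z_1`, `P_c = z_2`). For `g` over `B` apply
`δ = dg D g` to `F_i(P) = 0` (`der_form` with `x := P`): `0 = form g_i P + ∑_l ∂_l F_i(P) δ(P_l)`,
`δ(P_l) = ∑_k z_k δ(p_kl) + ∑_k δ(z_k) p_kl`; the second part contributes
`∑_k δ(z_k) (∂_(p_k) F_i)(P) = 0` by (∗) (differentiate (∗) in `z_k`: `F_i(P + t p_k) = 0` for all
`t`), the first part is supported on `l = u, v` (the `p_kl`, `l = 0, b, c`, are constants), where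
`∂_l F_i(P) = 0`. So `form g_i P = 0` for all `g`; but `g_i = X_l^2` with `P_l ≠ 0` has value
`P_l^2 ≠ 0`.
-/

set_option autoImplicit false

namespace Pool.Agent.Helper64.CI

open scoped BigOperators
open MvPolynomial
open Pool.Agent.Helper8.LG (Bdd form mon Ix)
open Pool.Agent.Helper49.LN (cP mo hf pl)
open Pool.Agent.Helper10.CI (Fp)

section

variable {Ω : Type*} [Field Ω]

theorem quad_mo {σ : Type*} [Fintype σ] [DecidableEq σ] (u v l : σ) (y : σ → Ω) :
    eval y (pderiv l (mo Ω ({u, v} : Multiset σ))) =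
      (if u = l then y v else 0) + (if v = l then y u else 0) := by
  have h1 : mo Ω ({u, v} : Multiset σ) = X u * X v := by simp [mo]
  rw [h1, Derivation.leibniz, smul_eq_mul, smul_eq_mul, map_add, map_mul, map_mul, eval_X, eval_X,
    pderiv_X, pderiv_X, Pi.single_apply, Pi.single_apply]
  split_ifs <;> simp [add_comm]

theorem quad_ev {σ : Type*} [Fintype σ] [DecidableEq σ] (u v : σ) (y : σ → Ω) :
    eval y (mo Ω ({u, v} : Multiset σ)) = y u * y v := by
  have h1 : mo Ω ({u, v} : Multiset σ) = X u * X v := by simp [mo]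
  rw [h1, map_mul, eval_X, eval_X]

theorem quad_pol {σ : Type*} [Fintype σ] [DecidableEq σ] (K : Multiset σ)
    (hK : Multiset.card K = 2) (P Q : σ → Ω) :
    eval (fun l => P l + Q l) (mo Ω K) =
      eval P (mo Ω K) + ∑ l, Q l * eval P (pderiv l (mo Ω K)) + eval Q (mo Ω K) := by
  obtain ⟨u, v, rfl⟩ := Multiset.card_eq_two.1 hK
  simp only [quad_mo, quad_ev, mul_add, Finset.sum_add_distrib, mul_ite, mul_zero,
    Finset.sum_ite_eq, Finset.mem_univ, if_true]
  ring

theorem quad_lin {σ : Type*} [Fintype σ] [DecidableEq σ] (K : Multiset σ)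
    (hK : Multiset.card K = 2) (l : σ) (p : Fin 3 → σ → Ω) (z : Fin 3 → Ω) :
    eval (fun m => z 0 * p 0 m + z 1 * p 1 m + z 2 * p 2 m) (pderiv l (mo Ω K)) =
      z 0 * eval (p 0) (pderiv l (mo Ω K)) + z 1 * eval (p 1) (pderiv l (mo Ω K)) +
        z 2 * eval (p 2) (pderiv l (mo Ω K)) := by
  obtain ⟨u, v, rfl⟩ := Multiset.card_eq_two.1 hK
  simp only [quad_mo]
  split_ifs <;> ring

theorem quad_Bmem {σ : Type*} [Fintype σ] [DecidableEq σ] (B : Subfield Ω) (K : Multiset σ)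
    (hK : Multiset.card K = 2) (l : σ) (y : σ → Ω) (hy : ∀ m, y m ∈ B) :
    eval y (pderiv l (mo Ω K)) ∈ B := by
  obtain ⟨u, v, rfl⟩ := Multiset.card_eq_two.1 hK
  rw [quad_mo]
  refine B.add_mem ?_ ?_
  · split_ifs
    · exact hy _
    · exact B.zero_mem
  · split_ifs
    · exact hy _
    · exact B.zero_mem

theorem quad_Fp {σ : Type*} [Fintype σ] [DecidableEq σ] {r : ℕ} {d : Fin r → ℕ}
    (a : Ix σ d → Ω) (i : Fin r) (l : σ) (y : σ → Ω) :
    eval y (pderiv l (Fp a i)) =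
      ∑ J : Sym σ (d i), a ⟨i, J⟩ * eval y (pderiv l (mo Ω (J : Multiset σ))) := by
  rw [Fp, map_sum, map_sum]
  refine Finset.sum_congr rfl fun J _ => ?_
  rw [Derivation.map_smul, smul_eval]

theorem quad_form {σ : Type*} [Fintype σ] [DecidableEq σ] {r : ℕ} {d : Fin r → ℕ}
    (a : Ix σ d → Ω) (i : Fin r) (hi : d i = 2) (P Q : σ → Ω) :
    form (fun J => a ⟨i, J⟩) (fun l => P l + Q l) =
      form (fun J => a ⟨i, J⟩) P + ∑ l, Q l * eval P (pderiv l (Fp a i)) +
        form (fun J => a ⟨i, J⟩) Q := by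
  have h1 : ∑ l, Q l * eval P (pderiv l (Fp a i)) =
      ∑ J : Sym σ (d i), a ⟨i, J⟩ * ∑ l, Q l * eval P (pderiv l (mo Ω (J : Multiset σ))) := by
    simp only [quad_Fp, Finset.mul_sum]
    rw [Finset.sum_comm]
    refine Finset.sum_congr rfl fun J _ => Finset.sum_congr rfl fun l _ => ?_
    ring
  rw [h1, form, form, form, ← Finset.sum_add_distrib, ← Finset.sum_add_distrib]
  refine Finset.sum_congr rfl fun J _ => ?_
  rw [Pool.Agent.Helper6.QS.ev_mon_eq, Pool.Agent.Helper6.QS.ev_mon_eq,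
    Pool.Agent.Helper6.QS.ev_mon_eq, quad_pol _ ((Sym.card_coe).trans hi)]
  ring

theorem quad_idx : ∀ b c : Fin (4 + 1), b ≠ 0 → c ≠ 0 → b ≠ c → ∃ u v : Fin (4 + 1), ∀ l,
    l = 0 ∨ l = b ∨ l = c ∨ l = u ∨ l = v := by
  decide

theorem quad_ker (B : Subfield Ω) (q1 q2 : Fin 3 → Ω) (h1 : ∀ k, q1 k ∈ B) (h2 : ∀ k, q2 k ∈ B) :
    ∃ z : Fin 3 → Ω, (∀ k, z k ∈ B) ∧ (∃ k, z k ≠ 0) ∧
      z 0 * q1 0 + z 1 * q1 1 + z 2 * q1 2 = 0 ∧ z 0 * q2 0 + z 1 * q2 1 + z 2 * q2 2 = 0 := by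
  have hdet : (Matrix.of ![fun k => (⟨q1 k, h1 k⟩ : B), fun k => (⟨q2 k, h2 k⟩ : B), fun _ => 0] :
      Matrix (Fin 3) (Fin 3) B).det = 0 := by
    rw [Matrix.det_fin_three]
    simp
  obtain ⟨w, hw, hw0⟩ := Matrix.exists_mulVec_eq_zero_iff.2 hdet
  refine ⟨fun k => (w k : Ω), fun k => (w k).2, ?_, ?_, ?_⟩
  · by_contra hcon
    push Not at hcon
    exact hw (funext fun k => Subtype.ext (hcon k))
  · have h3 := congrArg (fun y : B => (y : Ω)) (congrFun hw0 0)
    simp only [Matrix.mulVec, dotProduct, Fin.sum_univ_three] at h3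
    simpa [mul_comm] using h3
  · have h3 := congrArg (fun y : B => (y : Ω)) (congrFun hw0 1)
    simp only [Matrix.mulVec, dotProduct, Fin.sum_univ_three] at h3
    simpa [mul_comm] using h3

end

theorem quad_ex {Ω : Type*} [Field Ω] [CharZero Ω] {r : ℕ} {d : Fin r → ℕ}
    {D : Ix (Fin (4 + 1)) d → Derivation ℤ Ω Ω} {a : Ix (Fin (4 + 1)) d → Ω} {B : Subfield Ω}
    {x : Fin (4 + 1) → Ω} (h : AlgC D a B) (hz : ∀ i, form (fun J => a ⟨i, J⟩) x = 0)
    {b c : Fin (4 + 1)} {p : Fin 3 → Fin (4 + 1) → Ω} (hp : Pl B x b c p) (i : Fin r)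
    (hi : d i = 2) :
    ∃ f : MvPolynomial (Fin 2) B, f ≠ 0 ∧ f.totalDegree ≤ 2 ∧ aeval ![x b, x c] f = 0 := by
  obtain ⟨f, hf1, hf2, -, -, hf5⟩ := fr_ex h hp i
  by_cases hf0 : f = 0
  swap
  · exact ⟨f, hf0, hf1.trans hi.le, hf2.trans (hz i)⟩
  exfalso
  have hF := hf5 hf0
  obtain ⟨u, v, huv⟩ := quad_idx b c hp.hb hp.hc hp.hbc
  have hBm : ∀ k l, eval (p k) (pderiv l (Fp a i)) ∈ B := by
    intro k l
    rw [quad_Fp]
    exact B.sum_mem fun J _ =>
      B.mul_mem (h.mem _) (quad_Bmem B _ ((Sym.card_coe).trans hi) l _ (hp.mem k))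
  obtain ⟨z, hzB, ⟨k0, hk0⟩, hzu, hzv⟩ := quad_ker B (fun k => eval (p k) (pderiv u (Fp a i)))
    (fun k => eval (p k) (pderiv v (Fp a i))) (fun k => hBm k u) (fun k => hBm k v)
  obtain ⟨P, hP⟩ : ∃ P : Fin (4 + 1) → Ω,
      P = fun l => z 0 * p 0 l + z 1 * p 1 l + z 2 * p 2 l := ⟨_, rfl⟩
  have hlin : ∀ l, eval P (pderiv l (Fp a i)) = z 0 * eval (p 0) (pderiv l (Fp a i)) +
      z 1 * eval (p 1) (pderiv l (Fp a i)) + z 2 * eval (p 2) (pderiv l (Fp a i)) := by
    intro l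
    simp only [quad_Fp]
    rw [Finset.mul_sum, Finset.mul_sum, Finset.mul_sum, ← Finset.sum_add_distrib,
      ← Finset.sum_add_distrib]
    refine Finset.sum_congr rfl fun J _ => ?_
    rw [hP, quad_lin _ ((Sym.card_coe).trans hi)]
    ring
  have hPu : eval P (pderiv u (Fp a i)) = 0 := (hlin u).trans hzu
  have hPv : eval P (pderiv v (Fp a i)) = 0 := (hlin v).trans hzv
  obtain ⟨l0, hl0⟩ : ∃ l0, P l0 ≠ 0 := by
    fin_cases k0
    · refine ⟨0, ?_⟩
      have h1 : P 0 = z 0 := by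
        rw [hP]
        simp [hp.n0]
      rw [h1]
      exact hk0
    · refine ⟨b, ?_⟩
      have h1 : P b = z 1 := by
        rw [hP]
        simp [hp.nb]
      rw [h1]
      exact hk0
    · refine ⟨c, ?_⟩
      have h1 : P c = z 2 := by
        rw [hP]
        simp [hp.nc]
      rw [h1]
      exact hk0
  have hFP : form (fun J => a ⟨i, J⟩) P = 0 := by
    rw [hP]
    exact hF z
  have hpol : ∀ k, ∑ l, p k l * eval P (pderiv l (Fp a i)) = 0 := by
    intro k
    have h1 := quad_form a i hi P (p k)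
    have h2 : form (fun J => a ⟨i, J⟩) (fun l => P l + p k l) = 0 := by
      have h3 := hF (fun j => z j + if j = k then 1 else 0)
      have h4 : (fun l => P l + p k l) = (fun l => (z 0 + if (0 : Fin 3) = k then 1 else 0) * p 0 l +
          (z 1 + if (1 : Fin 3) = k then 1 else 0) * p 1 l +
          (z 2 + if (2 : Fin 3) = k then 1 else 0) * p 2 l) := by
        funext l
        rw [hP]
        fin_cases k <;> simp <;> ring
      rw [h4]
      exact h3
    have h3 : form (fun J => a ⟨i, J⟩) (p k) = 0 := by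
      have h3 := hF (fun j => if j = k then 1 else 0)
      have h4 : p k = (fun l => (if (0 : Fin 3) = k then 1 else 0) * p 0 l +
          (if (1 : Fin 3) = k then 1 else 0) * p 1 l +
          (if (2 : Fin 3) = k then 1 else 0) * p 2 l) := by
        funext l
        fin_cases k <;> simp
      rw [h4]
      exact h3
    rw [h2, h3, hFP, zero_add, add_zero] at h1
    exact h1.symm
  obtain ⟨J0, hJ0⟩ : ∃ J0 : Sym (Fin (4 + 1)) (d i), (J0 : Multiset (Fin (4 + 1))) = {l0, l0} :=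
    ⟨Sym.mk {l0, l0} (by rw [hi]; rfl), rfl⟩
  obtain ⟨g, hg⟩ : ∃ g : Ix (Fin (4 + 1)) d → Ω, g = fun s => if s = ⟨i, J0⟩ then 1 else 0 :=
    ⟨_, rfl⟩
  have hδa : ∀ J, dg D g (a ⟨i, J⟩) = if J = J0 then 1 else 0 := by
    intro J
    rw [dg_apply]
    simp only [h.dual, mul_ite, mul_one, mul_zero, Finset.sum_ite_eq, Finset.mem_univ, if_true]
    rw [hg]
    simp
  have h5 := der_form (dg D g) a P i
  rw [hFP, map_zero] at h5
  have h6 : form (fun J => dg D g (a ⟨i, J⟩)) P = P l0 * P l0 := by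
    rw [form, Finset.sum_eq_single J0]
    · rw [hδa, if_pos rfl, one_mul, Pool.Agent.Helper6.QS.ev_mon_eq, hJ0, quad_ev]
    · intro J _ hJ
      rw [hδa, if_neg hJ, zero_mul]
    · intro hJ
      exact absurd (Finset.mem_univ _) hJ
  have hconst : ∀ l, (l = 0 ∨ l = b ∨ l = c) → ∀ k, dg D g (p k l) = 0 := by
    intro l hl k
    rcases hl with hl | hl | hl
    · rw [hl, hp.n0]
      split_ifs
      · exact Derivation.map_one_eq_zero _
      · exact map_zero _
    · rw [hl, hp.nb]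
      split_ifs
      · exact Derivation.map_one_eq_zero _
      · exact map_zero _
    · rw [hl, hp.nc]
      split_ifs
      · exact Derivation.map_one_eq_zero _
      · exact map_zero _
  have hfirst : ∀ l, (z 0 * dg D g (p 0 l) + z 1 * dg D g (p 1 l) + z 2 * dg D g (p 2 l)) *
      eval P (pderiv l (Fp a i)) = 0 := by
    intro l
    rcases huv l with hl | hl | hl | hl | hl
    · rw [hconst l (Or.inl hl), hconst l (Or.inl hl), hconst l (Or.inl hl)]
      ring
    · rw [hconst l (Or.inr (Or.inl hl)), hconst l (Or.inr (Or.inl hl)),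
        hconst l (Or.inr (Or.inl hl))]
      ring
    · rw [hconst l (Or.inr (Or.inr hl)), hconst l (Or.inr (Or.inr hl)),
        hconst l (Or.inr (Or.inr hl))]
      ring
    · rw [hl, hPu, mul_zero]
    · rw [hl, hPv, mul_zero]
  have h7 : ∑ l, dg D g (P l) * eval P (pderiv l (Fp a i)) = 0 := by
    have h8 : ∀ l, dg D g (P l) * eval P (pderiv l (Fp a i)) =
        dg D g (z 0) * (p 0 l * eval P (pderiv l (Fp a i))) +
        dg D g (z 1) * (p 1 l * eval P (pderiv l (Fp a i))) +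
        dg D g (z 2) * (p 2 l * eval P (pderiv l (Fp a i))) := by
      intro l
      have h9 : dg D g (P l) = (z 0 * dg D g (p 0 l) + z 1 * dg D g (p 1 l) +
          z 2 * dg D g (p 2 l)) + (dg D g (z 0) * p 0 l + dg D g (z 1) * p 1 l +
          dg D g (z 2) * p 2 l) := by
        rw [hP]
        simp only [map_add, Derivation.leibniz, smul_eq_mul]
        ring
      rw [h9, add_mul, hfirst, zero_add]
      ring
    rw [Finset.sum_congr rfl fun l _ => h8 l, Finset.sum_add_distrib, Finset.sum_add_distrib,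
      ← Finset.mul_sum, ← Finset.mul_sum, ← Finset.mul_sum, hpol, hpol, hpol]
    ring
  rw [h6, h7, add_zero] at h5
  exact hl0 (mul_self_eq_zero.1 h5.symm)

end Pool.Agent.Helper64.CI
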