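import Pool.Agent.Helper64.CI.Cnt
import Pool.Agent.Helper64.CI.Quad
import Pool.Agent.Helper64.CI.PlaneOf
import Pool.Agent.Helper64.CI.MinH
import Pool.Agent.Helper64.CI.Pow

/-!
# CI, step 5: assembly for surfaces
-/

set_option autoImplicit false

namespace Pool.Agent.Helper64.CI

open scoped BigOperators
open MvPolynomial
open Pool.Agent.Helper8.LG (Bdd form mon Ix)
open Pool.Agent.Helper49.LN (cP mo hf pl)

variable {Ω : Type*} [Field Ω] [CharZero Ω] {N r : ℕ} {d : Fin r → ℕ}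
  {D : Ix (Fin (N + 1)) d → Derivation ℤ Ω Ω} {a : Ix (Fin (N + 1)) d → Ω} {B : Subfield Ω}
  {x : Fin (N + 1) → Ω}

theorem Case5_hcl (h : AlgC D a B) : ∀ z : Ω, IsAlgebraic B z → z ∈ (algebraMap B Ω).range :=
  fun z hz => ⟨⟨z, h.alg z hz⟩, rfl⟩

/-- the coordinates are not all rational -/
theorem Case5_ne {b c : Fin (N + 1)} (hli : LinearIndependent B ![(1 : Ω), x b, x c]) :
    x b ∉ B := by
  intro hb
  rw [Fintype.linearIndependent_iff] at hli
  have h1 := hli ![-⟨x b, hb⟩, 1, 0] (by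
    rw [Fin.sum_univ_three]
    simp only [Matrix.cons_val_zero, Matrix.cons_val_one, Matrix.cons_val_two, Matrix.head_cons,
      Matrix.tail_cons, Matrix.cons_val, one_smul, zero_smul, add_zero]
    rw [Subfield.smul_def]
    simp) 1
  simp at h1

/-- a degree bound: either all degrees are at most `3` or one of the forms is a quadric in `P^4` -/
theorem Case5_deg (hN : N = r + 2) (hr : 2 ≤ r) (hd : ∀ i, 2 ≤ d i)
    (hs : ∑ i, (d i + 1) = 2 * N) : (∀ i, d i ≤ 3) ∨ (N = 4 ∧ ∃ i, d i = 2) := by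
  by_cases h3 : ∀ i, d i ≤ 3
  · exact Or.inl h3
  push Not at h3
  obtain ⟨i, hi⟩ := h3
  right
  have h1 : ∑ j, (d j + 1) = (d i + 1) + ∑ j ∈ Finset.univ.erase i, (d j + 1) :=
    (Finset.add_sum_erase _ _ (Finset.mem_univ i)).symm
  have h2 : (Finset.univ.erase i).card = r - 1 := by
    rw [Finset.card_erase_of_mem (Finset.mem_univ i), Finset.card_univ, Fintype.card_fin]
  have h4 : 3 * (r - 1) ≤ ∑ j ∈ Finset.univ.erase i, (d j + 1) := by
    have h5 : ∑ _j ∈ Finset.univ.erase i, 3 ≤ ∑ j ∈ Finset.univ.erase i, (d j + 1) :=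
      Finset.sum_le_sum fun j _ => by have := hd j; omega
    rw [Finset.sum_const, h2, smul_eq_mul] at h5
    omega
  have hr2 : r = 2 := by omega
  refine ⟨by omega, ?_⟩
  have h6 : (Finset.univ.erase i).Nonempty := by
    rw [← Finset.card_pos, h2]
    omega
  obtain ⟨j, hj⟩ := h6
  refine ⟨j, ?_⟩
  have h7 : d j + 1 ≤ ∑ j ∈ Finset.univ.erase i, (d j + 1) :=
    Finset.single_le_sum (f := fun j => d j + 1) (fun _ _ => Nat.zero_le _) hj
  have := hd j
  omega

/-- sums -/
theorem Case5_sum (hs : ∑ i, (d i + 1) = 2 * N) : ∑ i, (2 * d i + 2) = 4 * N := by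
  have h1 : ∑ i, (2 * d i + 2) = ∑ i, 2 * (d i + 1) := Finset.sum_congr rfl fun i _ => by ring
  rw [h1, ← Finset.mul_sum, hs]
  ring

/-- **Surfaces**: a point on a rational plane is rational -/
theorem plane_case (h : AlgC D a B) (hx : x 0 = 1) (hz : ∀ i, form (fun J => a ⟨i, J⟩) x = 0)
    (hN : N = r + 2) (hr : 2 ≤ r) (hd : ∀ i, 2 ≤ d i) (hs : ∑ i, (d i + 1) = 2 * N)
    {b c : Fin (N + 1)} {p : Fin 3 → Fin (N + 1) → Ω} (hp : Pl B x b c p) : ∀ l, x l ∈ B := by
  rcases lin_or h (by omega) hx hz hp with hl | hli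
  · exact hl
  exfalso
  have hcl := Case5_hcl h
  have hnb : x b ∉ B ∨ x c ∉ B := Or.inl (Case5_ne hli)
  -- lower bounds
  have hfin : ∀ n, Module.Finite B (LinearMap.range (evB B x n)) := fun n => inferInstance
  have hlow : ∀ n, Module.finrank B ↥((Submodule.span B ({1, x b, x c} : Set Ω)) ^ n) ≤
      Module.finrank B (LinearMap.range (evB B x n)) := fun n =>
    Submodule.finrank_mono (range_evB B x hx b c n)
  have hlow1 : ∀ i, 2 * d i + 1 ≤ Module.finrank B (LinearMap.range (evB B x (d i))) := fun i =>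
    (pow_low hcl (x b) (x c) hli (d i)).trans (hlow (d i))
  have hsum := Case5_sum hs
  have hcard : ∑ _i : Fin r, 1 = r := by simp
  have hs1 : ∑ i, (2 * d i + 1) + r = 4 * N := by
    have h0 : ∑ i, (2 * d i + 2) = ∑ i, (2 * d i + 1) + ∑ _i : Fin r, 1 := by
      rw [← Finset.sum_add_distrib]
    rw [hcard] at h0
    omega
  have hA : ∑ i, (2 * d i + 1) ≤
      ∑ i, Module.finrank B (LinearMap.range (evB B x (d i))) :=
    Finset.sum_le_sum fun i _ => hlow1 i
  rcases min_h (K := B) (x b) (x c) hli 3 with h3 | ⟨e, f, he2, he3, hfe, hf, hm, hf', hmin⟩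
  · -- no polynomial of degree at most `3`
    rcases Case5_deg hN hr hd hs with hd3 | ⟨hN4, i, hi⟩
    · have hdd : ∀ i, dd a x i (p 1) = 0 ∧ dd a x i (p 2) = 0 := by
        intro i
        obtain ⟨f, hf1, hf2, hf3, hf4, -⟩ := fr_ex h hp i
        have hf0 : f = 0 := h3 f (hf1.trans (hd3 i)) (by rw [hf2]; exact hz i)
        rw [← hf3, ← hf4, hf0]
        simp
      have h5 := cnt_plane h hz hp hdd
      omega
    · subst hN4
      obtain ⟨f, hf0, hf2, hf3⟩ := quad_ex h hz hp i hi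
      exact hf0 (h3 f (by omega) hf3)
  · have h5 := cnt_curve h hz hp hnb f hf hf' e hfe hm
    obtain rfl | rfl : e = 2 ∨ e = 3 := by omega
    · norm_num at h5
      omega
    · have hB : ∑ i, (2 * d i + 2) ≤
          ∑ i, Module.finrank B (LinearMap.range (evB B x (d i))) :=
        Finset.sum_le_sum fun i _ => (pow_low' hcl (x b) (x c) hli
          (fun h' h1 h2 => hmin h' (by omega) h2) (d i) (hd i)).trans (hlow (d i))
      norm_num at h5
      omega

end Pool.Agent.Helper64.CI
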