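import Pool.Agent.Helper64.CI.Defs
import Pool.Agent.Helper6.QS.Line
import Pool.Agent.Helper10.CI.Lin

/-!
# CI: a point of the complete intersection on a rational line is rational

Copies of `line_gen` and `line_mem` of `Helper6/QS/Line.lean` for `r` forms: `gen_line`
(`Helper49/LV/GenLine.lean`) is stated for a family of forms and gives an index `i` and `n` with
`F_i(u + n v) ≠ 0`; `line_alg` of `Helper6/QS/Line.lean` is used for this `i`.
-/

set_option autoImplicit false

namespace Pool.Agent.Helper64.CI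

open scoped BigOperators
open MvPolynomial
open Pool.Agent.Helper8.LG (Bdd form mon Ix)
open Pool.Agent.Helper49.LN (cP mo hf pl)

variable {Ω : Type*} [Field Ω] [CharZero Ω] {N r : ℕ} {d : Fin r → ℕ}
  {D : Ix (Fin (N + 1)) d → Derivation ℤ Ω Ω} {a : Ix (Fin (N + 1)) d → Ω} {B : Subfield Ω}
  {x : Fin (N + 1) → Ω}

theorem line_gen (hd : ∀ I J, D J (a I) = if I = J then 1 else 0)
    (hs : 2 * N < ∑ i, (d i + 1) + 2) (α β : Fin (N + 1)) (hαβ : α ≠ β)
    (u v : Fin (N + 1) → Ω) (huα : u α = 1) (huβ : u β = 0) (hvα : v α = 0) (hvβ : v β = 1) :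
    ∃ (i : Fin r) (n : ℕ), form (fun J => a ⟨i, J⟩) (fun l => u l + n * v l) ≠ 0 :=
  Pool.Agent.Helper10.CI.Lin_gen hd (by rw [Fintype.card_fin]; omega) α β hαβ u v huα huβ hvα hvβ

theorem line_mem (h : AlgC D a B) (hs : 2 * N < ∑ i, (d i + 1) + 2) (hx : x 0 = 1)
    (hz : ∀ i, form (fun J => a ⟨i, J⟩) x = 0) (y : Fin (N + 1) → Ω)
    (hy : ∃ j l, pl x y j l ≠ 0) (hyB : ∀ j l, pl x y j l ∈ B) : ∀ l, x l ∈ B := by
  obtain ⟨β, hβ⟩ : ∃ β, pl x y 0 β ≠ 0 := by
    by_contra hcon
    push Not at hcon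
    obtain ⟨j, l, hjl⟩ := hy
    apply hjl
    have h1 : ∀ l, y l = x l * y 0 := fun l => by
      have h2 := hcon l
      unfold pl at h2
      rw [hx, one_mul] at h2
      exact sub_eq_zero.1 h2
    unfold pl
    rw [h1 j, h1 l]
    ring
  have hne : (0 : Fin (N + 1)) ≠ β := by
    rintro rfl
    apply hβ
    unfold pl
    ring
  set u : Fin (N + 1) → Ω := fun l => pl x y l β / pl x y 0 β with hu
  set v : Fin (N + 1) → Ω := fun l => pl x y 0 l / pl x y 0 β with hv
  have hxuv : ∀ l, x l = u l + x β * v l := by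
    intro l
    rw [hu, hv]
    simp only
    field_simp
    unfold pl
    rw [hx]
    ring
  have hu1 : u 0 = 1 := div_self hβ
  have hu0 : u β = 0 := by
    change pl x y β β / _ = 0
    unfold pl
    simp
  have hv0 : v 0 = 0 := by
    change pl x y 0 0 / _ = 0
    unfold pl
    simp
  have hv1 : v β = 1 := div_self hβ
  have huB : ∀ l, u l ∈ B := fun l => div_mem (hyB l β) (hyB 0 β)
  have hvB : ∀ l, v l ∈ B := fun l => div_mem (hyB 0 l) (hyB 0 β)
  obtain ⟨i, n, hn⟩ := line_gen h.dual hs 0 β hne u v hu1 hu0 hv0 hv1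
  have hxβ : x β ∈ B := by
    refine h.alg (x β) (Pool.Agent.Helper6.QS.line_alg (a := fun J => a ⟨i, J⟩)
      (fun J => h.mem ⟨i, J⟩) u v huB hvB n hn (x β) ?_)
    have h1 : (fun l => u l + x β * v l) = x := funext fun l => (hxuv l).symm
    rw [h1]
    exact hz i
  intro l
  rw [hxuv l]
  exact add_mem (huB l) (mul_mem hxβ (hvB l))

end Pool.Agent.Helper64.CI
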