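import Pool.Agent.Helper64.CI.Rng
import Pool.Agent.Helper64.CI.Ker

/-!
# CI, step 5: the two counts

`cnt_plane`: `count_le` with `κ = Fin 3 × {l : Fin (N + 1) // l ≠ 0 ∧ l ≠ b ∧ l ≠ c}` (card
`3 (N - 2)`) and `Θ g (k, l) = dg D g (p k l)` (in `B` by `AlgC.der`; `B`-linear in `g` by
`dg_apply`); `dg D g (p k l) = 0` for `l = 0, b, c` is automatic (`p k l` is `0` or `1`). `ker_plane`.
`cnt_curve`: in addition the coefficients `coeff m f`, `m ≠ m₀`, `m` of degree at most `e`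
(`(e + 1)(e + 2) / 2` exponents, e.g. the pairs `(i, j)` with `i + j ≤ e`), where
`coeff m₀ f = 1`; the coefficients of degree `> e` are `0`. `ker_curve`.
-/

set_option autoImplicit false

namespace Pool.Agent.Helper64.CI

open scoped BigOperators
open MvPolynomial
open Pool.Agent.Helper8.LG (Bdd form mon Ix)
open Pool.Agent.Helper49.LN (cP mo hf pl)

variable {Ω : Type*} [Field Ω] [CharZero Ω] {N r : ℕ} {d : Fin r → ℕ}
  {D : Ix (Fin (N + 1)) d → Derivation ℤ Ω Ω} {a : Ix (Fin (N + 1)) d → Ω} {B : Subfield Ω}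
  {x : Fin (N + 1) → Ω}

/-- the values of the derivation `dg D g` at the elements `q k` -/
noncomputable def Cnt_th (h : AlgC D a B) {κ : Type*} (q : κ → B) :
    (Ix (Fin (N + 1)) d → B) →ₗ[B] (κ → B) :=
  LinearMap.pi fun k =>
    Fintype.linearCombination B (fun s => (⟨D s (q k), h.der s _ (q k).2⟩ : B))

omit [CharZero Ω] in
theorem Cnt_th_apply (h : AlgC D a B) {κ : Type*} (q : κ → B) (g : Ix (Fin (N + 1)) d → B)
    (k : κ) : ((Cnt_th h q g k : B) : Ω) = dg D (fun s => (g s : Ω)) (q k) := by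
  unfold Cnt_th
  rw [LinearMap.pi_apply, Fintype.linearCombination_apply, dg_apply]
  simp

/-- the indices different from `0`, `b`, `c` -/
abbrev Cnt_ix (b c : Fin (N + 1)) : Type := {l : Fin (N + 1) // l ≠ 0 ∧ l ≠ b ∧ l ≠ c}

theorem Cnt_card {b c : Fin (N + 1)} (hb : b ≠ 0) (hc : c ≠ 0) (hbc : b ≠ c) :
    Fintype.card (Cnt_ix b c) = N - 2 := by
  classical
  rw [Fintype.card_subtype]
  have h1 : (Finset.univ.filter fun l : Fin (N + 1) => l ≠ 0 ∧ l ≠ b ∧ l ≠ c) =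
      Finset.univ \ {0, b, c} := by
    ext l
    simp
  rw [h1, Finset.card_sdiff_of_subset (Finset.subset_univ _), Finset.card_univ, Fintype.card_fin,
    Finset.card_insert_of_notMem (by simp [hb.symm, hc.symm]),
    Finset.card_insert_of_notMem (by simpa using hbc), Finset.card_singleton]
  omega

omit [CharZero Ω] in
theorem Cnt_zero {b c : Fin (N + 1)} {p : Fin 3 → Fin (N + 1) → Ω} (hp : Pl B x b c p)
    (δ : Derivation ℤ Ω Ω) (h : ∀ k (l : Cnt_ix b c), δ (p k l) = 0) (k : Fin 3)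
    (l : Fin (N + 1)) : δ (p k l) = 0 := by
  have h01 : ∀ (P : Prop) [Decidable P], δ (if P then 1 else 0) = 0 := by
    intro P _
    split_ifs
    · exact δ.map_one_eq_zero
    · exact map_zero δ
  by_cases h0 : l = 0
  · rw [h0, hp.n0]; exact h01 _
  by_cases hb : l = b
  · rw [hb, hp.nb]; exact h01 _
  by_cases hc : l = c
  · rw [hc, hp.nc]; exact h01 _
  exact h k ⟨l, h0, hb, hc⟩

theorem cnt_plane (h : AlgC D a B) (hz : ∀ i, form (fun J => a ⟨i, J⟩) x = 0)
    {b c : Fin (N + 1)} {p : Fin 3 → Fin (N + 1) → Ω} (hp : Pl B x b c p)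
    (hs : ∀ i, dd a x i (p 1) = 0 ∧ dd a x i (p 2) = 0) :
    ∑ i, Module.finrank B (LinearMap.range (evB B x (d i))) ≤ 3 * (N - 2) := by
  classical
  have h1 := count_le (d := d) B x (κ := Fin 3 × Cnt_ix b c)
    (Cnt_th h (fun k => ⟨p k.1 k.2, hp.mem _ _⟩)) fun g hg i => by
      rw [evB_apply]
      refine ker_plane h hz hp hs (fun s => (g s : Ω)) ?_ i
      refine Cnt_zero hp _ fun k l => ?_
      have h2 := Cnt_th_apply h (fun k : Fin 3 × Cnt_ix b c => ⟨p k.1 k.2, hp.mem _ _⟩) g (k, l)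
      rw [hg] at h2
      simpa using h2.symm
  rwa [Fintype.card_prod, Fintype.card_fin, Cnt_card hp.hb hp.hc hp.hbc] at h1

/-- the exponents of degree at most `e` -/
abbrev Cnt_ex (e : ℕ) : Type := Σ i : Fin (e + 1), Fin (i + 1)

/-- the exponents of degree at most `e` -/
noncomputable def Cnt_m {e : ℕ} (s : Cnt_ex e) : Fin 2 →₀ ℕ :=
  Finsupp.single 0 (s.2 : ℕ) + Finsupp.single 1 ((s.1 : ℕ) - (s.2 : ℕ))

theorem Cnt_m_surj {e : ℕ} (m : Fin 2 →₀ ℕ) (hm : m 0 + m 1 ≤ e) : ∃ s : Cnt_ex e, Cnt_m s = m := by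
  refine ⟨⟨⟨m 0 + m 1, by omega⟩, ⟨m 0, by simp only []; omega⟩⟩, ?_⟩
  ext k
  unfold Cnt_m
  fin_cases k <;> simp

theorem Cnt_ex_card (e : ℕ) : Fintype.card (Cnt_ex e) = (e + 1) * (e + 2) / 2 := by
  rw [Fintype.card_sigma]
  simp only [Fintype.card_fin]
  rw [Fin.sum_univ_eq_sum_range (fun i => i + 1) (e + 1)]
  have h1 := Finset.sum_range_succ' (fun i => i) (e + 1)
  rw [add_zero] at h1
  rw [← h1, Finset.sum_range_id, show e + 1 + 1 - 1 = e + 1 by omega, mul_comm]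

theorem cnt_curve (h : AlgC D a B) (hz : ∀ i, form (fun J => a ⟨i, J⟩) x = 0)
    {b c : Fin (N + 1)} {p : Fin 3 → Fin (N + 1) → Ω} (hp : Pl B x b c p)
    (hn : x b ∉ B ∨ x c ∉ B) (f : MvPolynomial (Fin 2) B) (hf : aeval ![x b, x c] f = 0)
    (hf' : aeval ![x b, x c] (pderiv 0 f) ≠ 0 ∨ aeval ![x b, x c] (pderiv 1 f) ≠ 0)
    (e : ℕ) (hfe : f.totalDegree ≤ e) (hm : ∃ m, coeff m f = 1) :
    ∑ i, Module.finrank B (LinearMap.range (evB B x (d i))) + 1 ≤
      3 * (N - 2) + (e + 1) * (e + 2) / 2 := by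
  classical
  obtain ⟨m₀, hm₀⟩ := hm
  have hbig : ∀ m : Fin 2 →₀ ℕ, e < m 0 + m 1 → coeff m f = 0 := by
    intro m hm
    apply coeff_eq_zero_of_totalDegree_lt
    have h1 : ∑ i ∈ m.support, m i = m 0 + m 1 := by
      rw [← Fin.sum_univ_two (fun i => m i)]
      refine Finset.sum_subset (Finset.subset_univ _) fun i _ hi => ?_
      simpa using hi
    rw [h1]
    omega
  have hm₀e : m₀ 0 + m₀ 1 ≤ e := by
    by_contra hlt
    rw [hbig m₀ (by omega)] at hm₀
    exact zero_ne_one hm₀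
  obtain ⟨s₀, hs₀⟩ := Cnt_m_surj m₀ hm₀e
  have hcard : Fintype.card {s : Cnt_ex e // Cnt_m s ≠ m₀} < (e + 1) * (e + 2) / 2 := by
    rw [← Cnt_ex_card]
    exact Fintype.card_subtype_lt (x := s₀) (by simpa using hs₀)
  have h1 := count_le (d := d) B x (κ := (Fin 3 × Cnt_ix b c) ⊕ {s : Cnt_ex e // Cnt_m s ≠ m₀})
    (Cnt_th h (Sum.elim (fun k => ⟨p k.1 k.2, hp.mem _ _⟩) (fun s => coeff (Cnt_m s.1) f)))
    fun g hg i => by
      have h2 := Cnt_th_apply h (Sum.elim
        (fun k : Fin 3 × Cnt_ix b c => (⟨p k.1 k.2, hp.mem _ _⟩ : B))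
        (fun s : {s : Cnt_ex e // Cnt_m s ≠ m₀} => coeff (Cnt_m s.1) f)) g
      rw [hg] at h2
      rw [evB_apply]
      refine ker_curve h hz hp hn f hf hf' (fun s => (g s : Ω)) ?_ ?_ i
      · refine Cnt_zero hp _ fun k l => ?_
        simpa using (h2 (Sum.inl (k, l))).symm
      · intro m
        by_cases hme : m 0 + m 1 ≤ e
        · by_cases hmm : m = m₀
          · rw [hmm, hm₀]
            exact Derivation.map_one_eq_zero _
          · obtain ⟨s, hs⟩ := Cnt_m_surj m hme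
            have h3 := h2 (Sum.inr ⟨s, by rw [hs]; exact hmm⟩)
            simp only [Sum.elim_inr, hs] at h3
            simpa using h3.symm
        · rw [hbig m (by omega)]
          exact map_zero _
  rw [Fintype.card_sum, Fintype.card_prod, Fintype.card_fin, Cnt_card hp.hb hp.hc hp.hbc] at h1
  omega

end Pool.Agent.Helper64.CI
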