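import Pool.Agent.Helper10.CI.Defs

/-!
# CI, step 5 (surfaces): definitions

`AlgC D a B`: the algebraic properties of a frame which are used: `D` dual to `a`, `a` in `B`, `B`
relatively algebraically closed and stable under the derivations.
`Pl B x b c p`: `x_l = p_0l + p_1l x_b + p_2l x_c` with `p_kl` in `B`, normalised at `0, b, c`.
`dg D g = sum_s g_s D_s`. `dd a x i v`: the derivative of the `i`-th form at `x` in direction `v`.
`evB B x n`: values at `x` of the forms of degree `n` with coefficients in `B`.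
-/

set_option autoImplicit false

namespace Pool.Agent.Helper64.CI

open scoped BigOperators
open MvPolynomial
open Pool.Agent.Helper8.LG (Bdd form mon Ix)
open Pool.Agent.Helper49.LN (cP mo hf pl)
open Pool.Agent.Helper6.QS (dv ev lf dt Par RatP)
open Pool.Agent.Helper10.CI (Fp)

variable {Ω : Type*} [Field Ω] {N r : ℕ} {d : Fin r → ℕ}

/-- algebraic properties of a frame -/
structure AlgC (D : Ix (Fin (N + 1)) d → Derivation ℤ Ω Ω) (a : Ix (Fin (N + 1)) d → Ω)
    (B : Subfield Ω) : Prop where
  dual : ∀ I J, D J (a I) = if I = J then 1 else 0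
  mem : ∀ J, a J ∈ B
  alg : ∀ z : Ω, IsAlgebraic B z → z ∈ B
  der : ∀ J, ∀ b ∈ B, D J b ∈ B

/-- a plane through `x` with coordinates in `B` -/
structure Pl (B : Subfield Ω) (x : Fin (N + 1) → Ω) (b c : Fin (N + 1))
    (p : Fin 3 → Fin (N + 1) → Ω) : Prop where
  hb : b ≠ 0
  hc : c ≠ 0
  hbc : b ≠ c
  mem : ∀ k l, p k l ∈ B
  eq : ∀ l, x l = p 0 l + p 1 l * x b + p 2 l * x c
  n0 : ∀ k, p k 0 = if k = 0 then 1 else 0
  nb : ∀ k, p k b = if k = 1 then 1 else 0
  nc : ∀ k, p k c = if k = 2 then 1 else 0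

/-- the derivation `sum_s g_s D_s` -/
noncomputable def dg (D : Ix (Fin (N + 1)) d → Derivation ℤ Ω Ω) (g : Ix (Fin (N + 1)) d → Ω) :
    Derivation ℤ Ω Ω := ∑ s, g s • D s

theorem dg_apply (D : Ix (Fin (N + 1)) d → Derivation ℤ Ω Ω) (g : Ix (Fin (N + 1)) d → Ω) (z : Ω) :
    dg D g z = ∑ s, g s * D s z := by
  unfold dg
  have h : ∀ S : Finset (Ix (Fin (N + 1)) d), (∑ s ∈ S, g s • D s) z = ∑ s ∈ S, g s * D s z := by
    classical
    intro S
    induction S using Finset.induction_on with
    | empty => simp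
    | insert s S hs ih =>
      rw [Finset.sum_insert hs, Finset.sum_insert hs, Derivation.add_apply, ih,
        Derivation.smul_apply, smul_eq_mul]
  exact h _

/-- the derivative of the `i`-th form at `x` in the direction `v` -/
noncomputable def dd (a : Ix (Fin (N + 1)) d → Ω) (x : Fin (N + 1) → Ω) (i : Fin r)
    (v : Fin (N + 1) → Ω) : Ω := ∑ l, v l * eval x (pderiv l (Fp a i))

/-- the values at `x` of the forms of degree `n` with coefficients in `B` -/
noncomputable def evB (B : Subfield Ω) (x : Fin (N + 1) → Ω) (n : ℕ) :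
    (Sym (Fin (N + 1)) n → B) →ₗ[B] Ω := Fintype.linearCombination B (fun J => mon x J)

theorem evB_apply (B : Subfield Ω) (x : Fin (N + 1) → Ω) (n : ℕ) (g : Sym (Fin (N + 1)) n → B) :
    evB B x n g = form (fun J => (g J : Ω)) x := by
  unfold evB form
  rw [Fintype.linearCombination_apply]
  rfl

end Pool.Agent.Helper64.CI
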