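import Pool.Agent.Helper64.CI.Defs

/-!
# CI, step 5: the restriction of a form to the plane

`f = ∑_J a_(i,J) ∏_(l ∈ J) (p_0l + p_1l X_0 + p_2l X_1)` (a `form` over `MvPolynomial (Fin 2) B` with
coefficients `C a_J`). Chain rule: `pderiv k` of it is `∑_l p_(k+1)l (∂_l F_i)(..)`.
`zero`: for `z ∈ B^3` the value `F_i(z_0 p_0 + z_1 p_1 + z_2 p_2)` is the value of the
homogenisation of `f`; if `f = 0` it is `0`: for `z_0 ≠ 0` it is `z_0^(d i)` times the value of `f`
at `(z_1 / z_0, z_2 / z_0)`; for all `z`: the polynomial `F_i(z_0 p_0 + z_1 p_1 + z_2 p_2)` in the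
variable `z_0` has infinitely many zeros.
-/

set_option autoImplicit false

namespace Pool.Agent.Helper64.CI

open scoped BigOperators
open MvPolynomial
open Pool.Agent.Helper8.LG (Bdd form mon Ix)
open Pool.Agent.Helper49.LN (cP mo hf pl)
open Pool.Agent.Helper10.CI (Fp)

/-- the chain rule -/
theorem fr_chain {R : Type*} [CommRing R] {σ τ : Type*} [Fintype σ]
    (q : σ → MvPolynomial τ R) (k : τ) (G : MvPolynomial σ R) :
    pderiv k (aeval q G) = ∑ l, aeval q (pderiv l G) * pderiv k (q l) := by
  classical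
  induction G using MvPolynomial.induction_on with
  | C c =>
    simp
  | add p p' hp hp' =>
    simp only [map_add, hp, hp', add_mul, Finset.sum_add_distrib]
  | mul_X p l hp =>
    have h1 : ∀ m : σ, aeval q (pderiv m (p * X l)) * pderiv k (q m) =
        (if m = l then aeval q p * pderiv k (q m) else 0) +
          q l * (aeval q (pderiv m p) * pderiv k (q m)) := by
      intro m
      rw [Derivation.leibniz, pderiv_X, smul_eq_mul, smul_eq_mul, map_add, map_mul, map_mul,
        aeval_X, add_mul]
      congr 1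
      · by_cases h : m = l
        · subst h
          simp
        · rw [if_neg h, Pi.single_eq_of_ne' h, map_zero, mul_zero, zero_mul]
      · ring
    rw [map_mul, aeval_X, Derivation.leibniz, hp, Finset.sum_congr rfl fun m _ => h1 m,
      Finset.sum_add_distrib, Finset.sum_ite_eq' Finset.univ l, if_pos (Finset.mem_univ l),
      ← Finset.mul_sum, smul_eq_mul, smul_eq_mul]

/-- scaling of a form -/
theorem fr_scale {Ω : Type*} [Field Ω] {σ : Type*} [Fintype σ] [DecidableEq σ] {n : ℕ}
    (c : Sym σ n → Ω) (t : Ω) (v : σ → Ω) :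
    form c (fun l => t * v l) = t ^ n * form c v := by
  unfold form
  rw [Finset.mul_sum]
  refine Finset.sum_congr rfl fun J _ => ?_
  have h : mon (fun l => t * v l) J = t ^ n * mon v J := by
    unfold mon
    rw [Multiset.prod_map_mul, Multiset.map_const', Multiset.prod_replicate, Sym.card_coe]
  rw [h]
  ring

variable {Ω : Type*} [Field Ω] [CharZero Ω] {N r : ℕ} {d : Fin r → ℕ}
  {D : Ix (Fin (N + 1)) d → Derivation ℤ Ω Ω} {a : Ix (Fin (N + 1)) d → Ω} {B : Subfield Ω}
  {x : Fin (N + 1) → Ω}

theorem fr_ex (h : AlgC D a B) {b c : Fin (N + 1)} {p : Fin 3 → Fin (N + 1) → Ω}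
    (hp : Pl B x b c p) (i : Fin r) :
    ∃ f : MvPolynomial (Fin 2) B, f.totalDegree ≤ d i ∧
      aeval ![x b, x c] f = form (fun J => a ⟨i, J⟩) x ∧
      aeval ![x b, x c] (pderiv 0 f) = dd a x i (p 1) ∧
      aeval ![x b, x c] (pderiv 1 f) = dd a x i (p 2) ∧
      (f = 0 → ∀ z : Fin 3 → Ω,
        form (fun J => a ⟨i, J⟩) (fun l => z 0 * p 0 l + z 1 * p 1 l + z 2 * p 2 l) = 0) := by
  classical
  -- the form over `B`
  let aB : Sym (Fin (N + 1)) (d i) → B := fun J => ⟨a ⟨i, J⟩, h.mem _⟩
  let pB : Fin 3 → Fin (N + 1) → B := fun k l => ⟨p k l, hp.mem k l⟩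
  let G : MvPolynomial (Fin (N + 1)) B :=
    ∑ J : Sym (Fin (N + 1)) (d i), C (aB J) * ((J : Multiset (Fin (N + 1))).map X).prod
  let q : Fin (N + 1) → MvPolynomial (Fin 2) B := fun l =>
    C (pB 0 l) + C (pB 1 l) * X 0 + C (pB 2 l) * X 1
  have hGm : MvPolynomial.map (algebraMap B Ω) G = Fp a i := by
    rw [Fp, map_sum]
    refine Finset.sum_congr rfl fun J _ => ?_
    rw [map_mul, map_C, map_multiset_prod, Multiset.map_map, smul_eq_C_mul]
    congr 1
    rw [mo]
    congr 1
    refine Multiset.map_congr rfl fun l _ => ?_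
    rw [Function.comp_apply, map_X]
  have hFe : ∀ v : Fin (N + 1) → Ω, eval v (Fp a i) = form (fun J => a ⟨i, J⟩) v := by
    intro v
    rw [Fp, form, map_sum]
    refine Finset.sum_congr rfl fun J _ => ?_
    rw [smul_eval, Pool.Agent.Helper6.QS.ev_mon_eq]
  have hGe : ∀ v : Fin (N + 1) → Ω, aeval v G = form (fun J => a ⟨i, J⟩) v := by
    intro v
    rw [← hFe, ← hGm, eval_map]
    rfl
  -- the point of the plane
  have hqe : ∀ (y : Fin 2 → Ω) (l : Fin (N + 1)),
      aeval y (q l) = p 0 l + p 1 l * y 0 + p 2 l * y 1 := by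
    intro y l
    change aeval y (C (pB 0 l) + C (pB 1 l) * X 0 + C (pB 2 l) * X 1) = _
    rw [map_add, map_add, map_mul, map_mul, aeval_C, aeval_C, aeval_C, aeval_X, aeval_X]
    rfl
  have hcomp : ∀ (y : Fin 2 → Ω) (G' : MvPolynomial (Fin (N + 1)) B),
      aeval y (aeval q G') = aeval (fun l => p 0 l + p 1 l * y 0 + p 2 l * y 1) G' := by
    intro y G'
    have e : (aeval y).comp (aeval q) =
        (aeval (fun l => p 0 l + p 1 l * y 0 + p 2 l * y 1) :
          MvPolynomial (Fin (N + 1)) B →ₐ[B] Ω) := by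
      apply MvPolynomial.algHom_ext
      intro l
      rw [AlgHom.comp_apply, aeval_X, aeval_X, hqe]
    exact DFunLike.congr_fun e G'
  have hx : (fun l => p 0 l + p 1 l * (![x b, x c] : Fin 2 → Ω) 0 +
      p 2 l * (![x b, x c] : Fin 2 → Ω) 1) = x := by
    funext l
    simp only [Matrix.cons_val_zero, Matrix.cons_val_one]
    exact (hp.eq l).symm
  have hd : ∀ (k : Fin 2) (m : Fin 3), (∀ l, pderiv k (q l) = C (pB m l)) →
      aeval ![x b, x c] (pderiv k (aeval q G)) = dd a x i (p m) := by
    intro k m hk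
    rw [fr_chain, map_sum, dd]
    refine Finset.sum_congr rfl fun l _ => ?_
    rw [map_mul, hcomp, hx, hk, aeval_C, mul_comm, ← hGm, pderiv_map, eval_map]
    rfl
  refine ⟨aeval q G, ?_, ?_, ?_, ?_, ?_⟩
  · -- the degree
    change (aeval q (∑ J : Sym (Fin (N + 1)) (d i),
      C (aB J) * ((J : Multiset (Fin (N + 1))).map X).prod)).totalDegree ≤ d i
    rw [map_sum]
    refine totalDegree_finsetSum_le fun J _ => ?_
    rw [map_mul, aeval_C, map_multiset_prod, Multiset.map_map]
    refine (totalDegree_mul _ _).trans ?_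
    have e1 : (algebraMap B (MvPolynomial (Fin 2) B) (aB J)).totalDegree = 0 := totalDegree_C _
    rw [e1, zero_add]
    have e2 : ∀ l, (q l).totalDegree ≤ 1 := by
      intro l
      refine (totalDegree_add _ _).trans (max_le ((totalDegree_add _ _).trans (max_le ?_ ?_)) ?_)
      · rw [totalDegree_C]
        exact Nat.zero_le _
      · refine (totalDegree_mul _ _).trans ?_
        rw [totalDegree_C, zero_add]
        exact (totalDegree_X (R := B) (0 : Fin 2)).le
      · refine (totalDegree_mul _ _).trans ?_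
        rw [totalDegree_C, zero_add]
        exact (totalDegree_X (R := B) (1 : Fin 2)).le
    refine (totalDegree_multiset_prod _).trans ?_
    rw [Multiset.map_map]
    have e3 : ∀ K : Multiset (Fin (N + 1)),
        (Multiset.map (fun l => (aeval q (X l : MvPolynomial (Fin (N + 1)) B)).totalDegree)
          K).sum ≤ Multiset.card K := by
      intro K
      induction K using Multiset.induction_on with
      | empty => simp
      | cons l K ih =>
        rw [Multiset.map_cons, Multiset.sum_cons, Multiset.card_cons, add_comm]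
        refine add_le_add ih ?_
        rw [aeval_X]
        exact e2 l
    have e4 := e3 (J : Multiset (Fin (N + 1)))
    rw [Sym.card_coe] at e4
    exact e4
  · rw [hcomp, hx, hGe]
  · refine hd 0 1 fun l => ?_
    change pderiv 0 (C (pB 0 l) + C (pB 1 l) * X 0 + C (pB 2 l) * X 1) = _
    simp [Derivation.leibniz, pderiv_X]
  · refine hd 1 2 fun l => ?_
    change pderiv 1 (C (pB 0 l) + C (pB 1 l) * X 0 + C (pB 2 l) * X 1) = _
    simp [Derivation.leibniz, pderiv_X]
  · intro hf z
    -- nonzero `z 0`
    have h1 : ∀ t u v : Ω, t ≠ 0 →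
        form (fun J => a ⟨i, J⟩) (fun l => t * p 0 l + u * p 1 l + v * p 2 l) = 0 := by
      intro t u v ht
      have h2 : (fun l => t * p 0 l + u * p 1 l + v * p 2 l) =
          fun l => t * (p 0 l + p 1 l * (![u / t, v / t] : Fin 2 → Ω) 0 +
            p 2 l * (![u / t, v / t] : Fin 2 → Ω) 1) := by
        funext l
        simp only [Matrix.cons_val_zero, Matrix.cons_val_one]
        field_simp
      rw [h2, fr_scale, ← hGe, ← hcomp, hf, map_zero, mul_zero]
    by_cases hz : z 0 = 0
    · let P : Polynomial Ω := aeval (fun l => Polynomial.C (p 0 l) * Polynomial.X +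
        Polynomial.C (z 1 * p 1 l + z 2 * p 2 l)) (Fp a i)
      have h3 : ∀ t : Ω, P.eval t =
          form (fun J => a ⟨i, J⟩) (fun l => t * p 0 l + z 1 * p 1 l + z 2 * p 2 l) := by
        intro t
        rw [← hFe]
        have e : ((Polynomial.aeval t).comp (aeval fun l => Polynomial.C (p 0 l) * Polynomial.X +
            Polynomial.C (z 1 * p 1 l + z 2 * p 2 l)) : MvPolynomial (Fin (N + 1)) Ω →ₐ[Ω] Ω) =
            aeval (fun l => t * p 0 l + z 1 * p 1 l + z 2 * p 2 l) := by
          apply MvPolynomial.algHom_ext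
          intro l
          rw [AlgHom.comp_apply, aeval_X, aeval_X]
          simp
          ring
        have e' := DFunLike.congr_fun e (Fp a i)
        rw [AlgHom.comp_apply] at e'
        rw [← Polynomial.coe_aeval_eq_eval]
        exact e'
      have h4 : P = 0 := by
        have h5 : P * Polynomial.X = 0 := by
          apply Polynomial.funext
          intro t
          rw [Polynomial.eval_mul, Polynomial.eval_X, Polynomial.eval_zero]
          by_cases ht : t = 0
          · rw [ht, mul_zero]
          · rw [h3, h1 t _ _ ht, zero_mul]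
        exact (mul_eq_zero.1 h5).resolve_right Polynomial.X_ne_zero
      have h6 := h3 0
      rw [h4, Polynomial.eval_zero] at h6
      rw [hz]
      exact h6.symm
    · exact h1 _ _ _ hz

end Pool.Agent.Helper64.CI
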