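import Mathlib

/-!
# CI, step 5: the linear Cauchy-Davenport theorem

PROOF (Dyson transform), strong induction on `dim U` for all `A`. `dim U = 1`: `U = K u`, `u ≠ 0`,
`U A = u A` has the dimension of `A`. Scale `U` by `u⁻¹`, `u ∈ U` not zero (dimensions do not
change): `1 ∈ U`. If for some `e ∈ A`, `e ≠ 0`, the space `U' = {u ∈ U : u e ∈ A}` is not `U`: let
`A' = A + e U`. Then `dim U' + dim A' = dim U + dim A` (`u ↦ e u` maps `U'` onto `e U ∩ A`),
`U' A' ⊆ U A` (`u' e u = u (u' e)`), `1 ∈ U'`, `dim U' < dim U`: induction.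
Otherwise `u e ∈ A` for all `u ∈ U`, `e ∈ A`: every `u ∈ U` is algebraic (`A` is a finitely
generated faithful module over `K[u]`), so `U = K`.
-/

set_option autoImplicit false

namespace Pool.Agent.Helper64.CI

/-- multiplication by a nonzero element preserves the dimension -/
private theorem kv_scale {K Ω : Type*} [Field K] [Field Ω] [Algebra K Ω] (e : Ω) (he : e ≠ 0)
    (U : Submodule K Ω) :
    Module.finrank K ↥(U.map (LinearMap.mulLeft K e)) = Module.finrank K U := by
  have hinj : Function.Injective (LinearMap.mulLeft K e) := by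
    intro x y hxy
    rw [LinearMap.mulLeft_apply, LinearMap.mulLeft_apply] at hxy
    exact mul_left_cancel₀ he hxy
  exact (Submodule.equivMapOfInjective _ hinj U).symm.finrank_eq

private theorem kv_finite_mul {K Ω : Type*} [Field K] [Field Ω] [Algebra K Ω]
    (U A : Submodule K Ω) (hU : Module.Finite K U) (hA : Module.Finite K A) :
    Module.Finite K ↥(U * A) := by
  rw [Module.Finite.iff_fg] at hU hA ⊢
  exact hU.mul hA

private theorem kv_one {K Ω : Type*} [Field K] [Field Ω] [Algebra K Ω]
    (hcl : ∀ z : Ω, IsAlgebraic K z → z ∈ (algebraMap K Ω).range) :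
    ∀ (n : ℕ) (U A : Submodule K Ω), Module.finrank K U = n → Module.Finite K U →
      Module.Finite K A → (1 : Ω) ∈ U → A ≠ ⊥ →
      Module.finrank K U + Module.finrank K A ≤ Module.finrank K ↥(U * A) + 1 := by
  intro n
  induction n using Nat.strong_induction_on with
  | _ n ih =>
    intro U A hn hU hA h1 hA0
    have hUA := kv_finite_mul U A hU hA
    by_cases hall : ∀ e ∈ A, ∀ u ∈ U, u * e ∈ A
    · -- all elements of `U` are algebraic
      have hUK : U ≤ Submodule.span K {(1 : Ω)} := by
        intro u hu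
        have hint : IsIntegral K u :=
          isIntegral_of_smul_mem_submodule A hA0 (Module.Finite.iff_fg.1 hA) u
            (fun e he => by rw [smul_eq_mul]; exact hall e he u hu)
        obtain ⟨c, hc⟩ := hcl u hint.isAlgebraic
        rw [Submodule.mem_span_singleton]
        exact ⟨c, by rw [← hc, Algebra.smul_def, mul_one]⟩
      have hd1 : Module.finrank K U ≤ 1 :=
        (Submodule.finrank_mono hUK).trans (finrank_span_singleton (K := K) (one_ne_zero (α := Ω))).le
      have hAle : A ≤ U * A := by
        intro a ha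
        have h2 := Submodule.mul_mem_mul h1 ha
        rwa [one_mul] at h2
      have hd2 := Submodule.finrank_mono hAle
      omega
    · push Not at hall
      obtain ⟨e, he, u₀, hu₀, hue⟩ := hall
      have he0 : e ≠ 0 := by
        rintro rfl
        rw [mul_zero] at hue
        exact hue (zero_mem A)
      obtain ⟨V, hV⟩ : ∃ V : Submodule K Ω, V = U.map (LinearMap.mulLeft K e) := ⟨_, rfl⟩
      obtain ⟨U', hU'⟩ : ∃ U' : Submodule K Ω, U' = U ⊓ A.comap (LinearMap.mulLeft K e) := ⟨_, rfl⟩
      have hVfin : Module.Finite K V := by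
        rw [hV]
        infer_instance
      have hmem : ∀ x, x ∈ U' ↔ x ∈ U ∧ e * x ∈ A := by
        intro x
        rw [hU', Submodule.mem_inf, Submodule.mem_comap, LinearMap.mulLeft_apply]
      have hle : U' ≤ U := fun x hx => ((hmem x).1 hx).1
      have hlt : U' < U := by
        refine lt_of_le_of_ne hle fun h => ?_
        rw [← h, hmem] at hu₀
        rw [mul_comm] at hue
        exact hue hu₀.2
      have hU'fin : Module.Finite K U' := Submodule.finiteDimensional_of_le hle
      have hinf : U'.map (LinearMap.mulLeft K e) = A ⊓ V := by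
        ext x
        rw [Submodule.mem_map, Submodule.mem_inf, hV, Submodule.mem_map]
        constructor
        · rintro ⟨y, hy, rfl⟩
          have h2 := (hmem y).1 hy
          exact ⟨h2.2, y, h2.1, rfl⟩
        · rintro ⟨hxA, y, hy, rfl⟩
          exact ⟨y, (hmem y).2 ⟨hy, hxA⟩, rfl⟩
      have hd := Submodule.finrank_sup_add_finrank_inf_eq A V
      rw [← hinf, kv_scale e he0 U'] at hd
      have hdV : Module.finrank K V = Module.finrank K U := by
        rw [hV]
        exact kv_scale e he0 U
      have hA'fin : Module.Finite K ↥(A ⊔ V) := Submodule.finiteDimensional_sup A V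
      have h1' : (1 : Ω) ∈ U' := (hmem 1).2 ⟨h1, by rw [mul_one]; exact he⟩
      have hA'0 : A ⊔ V ≠ ⊥ := fun h => hA0 (le_bot_iff.1 (le_sup_left.trans h.le))
      have hrec := ih (Module.finrank K U')
        (by rw [← hn]; exact Submodule.finrank_lt_finrank_of_lt hlt) U' (A ⊔ V) rfl hU'fin hA'fin
        h1' hA'0
      have hmul : U' * (A ⊔ V) ≤ U * A := by
        rw [Submodule.mul_le]
        intro m hm x hx
        obtain ⟨a, ha, v, hv, rfl⟩ := Submodule.mem_sup.1 hx
        rw [hV, Submodule.mem_map] at hv
        obtain ⟨u, hu, rfl⟩ := hv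
        have hm' := (hmem m).1 hm
        rw [mul_add, LinearMap.mulLeft_apply]
        refine add_mem (Submodule.mul_mem_mul hm'.1 ha) ?_
        have h2 : m * (e * u) = u * (e * m) := by ring
        rw [h2]
        exact Submodule.mul_mem_mul hu hm'.2
      have hfin2 := Submodule.finrank_mono hmul
      omega

/-- **linear Cauchy-Davenport** over a relatively algebraically closed subfield -/
theorem kv {K Ω : Type*} [Field K] [Field Ω] [Algebra K Ω]
    (hcl : ∀ z : Ω, IsAlgebraic K z → z ∈ (algebraMap K Ω).range)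
    (U A : Submodule K Ω) [Module.Finite K U] [Module.Finite K A] (hU : U ≠ ⊥) (hA : A ≠ ⊥) :
    Module.finrank K U + Module.finrank K A ≤ Module.finrank K ↥(U * A) + 1 := by
  obtain ⟨u, hu, hu0⟩ := (Submodule.ne_bot_iff U).1 hU
  have hui : u⁻¹ ≠ 0 := inv_ne_zero hu0
  have hfin : Module.Finite K ↥(U.map (LinearMap.mulLeft K u⁻¹)) := inferInstance
  have h1 : (1 : Ω) ∈ U.map (LinearMap.mulLeft K u⁻¹) := by
    rw [Submodule.mem_map]
    exact ⟨u, hu, by rw [LinearMap.mulLeft_apply, inv_mul_cancel₀ hu0]⟩
  have h2 := kv_one hcl _ (U.map (LinearMap.mulLeft K u⁻¹)) A rfl hfin inferInstance h1 hA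
  have h3 : U.map (LinearMap.mulLeft K u⁻¹) * A ≤ (U * A).map (LinearMap.mulLeft K u⁻¹) := by
    rw [Submodule.mul_le]
    intro m hm a ha
    obtain ⟨v, hv, rfl⟩ := Submodule.mem_map.1 hm
    rw [Submodule.mem_map]
    exact ⟨v * a, Submodule.mul_mem_mul hv ha, by
      rw [LinearMap.mulLeft_apply, LinearMap.mulLeft_apply, mul_assoc]⟩
  have hUA := kv_finite_mul U A inferInstance inferInstance
  have h4 := Submodule.finrank_mono h3
  rw [kv_scale u⁻¹ hui] at h4
  rw [kv_scale u⁻¹ hui] at h2
  omega

end Pool.Agent.Helper64.CI
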