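import Pool.Agent.Helper64.CI.Defs

/-!
# CI, step 5: the range of the evaluation, and the count

`range_evB`: induction on `n` (`Submodule.pow_induction_on_left'` or `pow_succ` and
`Submodule.mul_le`): a value of a form of degree `n` times `1 = x_0`, `x_b` or `x_c` is the value of
a form of degree `n + 1` (enough: `mon x J * x l = mon x (l ::ₛ J)`).
`count_le`: the map `g ↦ (evB (g_i))_i` into `∏ range (evB B x (d i))` is onto and its kernel
contains the kernel of `Θ`; so `∑ finrank = finrank of its range ≤ finrank of the range of Θ`.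
-/

set_option autoImplicit false

namespace Pool.Agent.Helper64.CI

open scoped BigOperators
open MvPolynomial
open Pool.Agent.Helper8.LG (Bdd form mon Ix)

variable {Ω : Type*} [Field Ω] {N r : ℕ} {d : Fin r → ℕ}

theorem Rng_mon (B : Subfield Ω) (x : Fin (N + 1) → Ω) (n : ℕ) (J : Sym (Fin (N + 1)) n) :
    mon x J ∈ LinearMap.range (evB B x n) := by
  classical
  refine ⟨Pi.single J 1, ?_⟩
  unfold evB
  rw [Fintype.linearCombination_apply_single, one_smul]

theorem Rng_mul (B : Subfield Ω) (x : Fin (N + 1) → Ω) (n : ℕ) (l : Fin (N + 1)) {m : Ω}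
    (hm : m ∈ LinearMap.range (evB B x n)) : m * x l ∈ LinearMap.range (evB B x (n + 1)) := by
  obtain ⟨g, rfl⟩ := hm
  unfold evB
  rw [Fintype.linearCombination_apply, Finset.sum_mul]
  refine Submodule.sum_mem _ fun J _ => ?_
  rw [smul_mul_assoc]
  refine Submodule.smul_mem _ _ ?_
  have h : mon x J * x l = mon x (l ::ₛ J) := by
    unfold mon
    rw [Sym.coe_cons, Multiset.map_cons, Multiset.prod_cons, mul_comm]
  rw [h]
  exact Rng_mon B x (n + 1) (l ::ₛ J)

theorem range_evB (B : Subfield Ω) (x : Fin (N + 1) → Ω) (hx : x 0 = 1) (b c : Fin (N + 1))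
    (n : ℕ) : (Submodule.span B ({1, x b, x c} : Set Ω)) ^ n ≤ LinearMap.range (evB B x n) := by
  induction n with
  | zero =>
    rw [pow_zero, Submodule.one_le]
    have h := Rng_mon B x 0 (Sym.nil)
    have h1 : mon x (Sym.nil : Sym (Fin (N + 1)) 0) = 1 := by
      unfold mon
      rw [Sym.coe_nil, Multiset.map_zero, Multiset.prod_zero]
    rwa [h1] at h
  | succ n ih =>
    rw [pow_succ, Submodule.mul_le]
    intro m hm y hy
    have hm' := ih hm
    induction hy using Submodule.span_induction with
    | mem y hy =>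
      rcases hy with rfl | rfl | rfl
      · have h := Rng_mul B x n 0 hm'
        rwa [hx] at h
      · exact Rng_mul B x n b hm'
      · exact Rng_mul B x n c hm'
    | zero =>
      rw [mul_zero]
      exact Submodule.zero_mem _
    | add y z _ _ hy hz =>
      rw [mul_add]
      exact Submodule.add_mem _ hy hz
    | smul t y _ hy =>
      rw [mul_smul_comm]
      exact Submodule.smul_mem _ _ hy

theorem count_le (B : Subfield Ω) (x : Fin (N + 1) → Ω) {κ : Type*} [Fintype κ]
    (Θ : (Ix (Fin (N + 1)) d → B) →ₗ[B] (κ → B))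
    (h : ∀ g, Θ g = 0 → ∀ i, evB B x (d i) (fun J => g ⟨i, J⟩) = 0) :
    ∑ i, Module.finrank B (LinearMap.range (evB B x (d i))) ≤ Fintype.card κ := by
  classical
  let E : (Ix (Fin (N + 1)) d → B) →ₗ[B] (∀ i : Fin r, LinearMap.range (evB B x (d i))) :=
    LinearMap.pi fun i => (evB B x (d i)).rangeRestrict ∘ₗ
      (LinearMap.funLeft B B (fun J : Sym (Fin (N + 1)) (d i) => (⟨i, J⟩ : Ix (Fin (N + 1)) d)))
  have hE : ∀ g i, ((E g i : LinearMap.range (evB B x (d i))) : Ω) =
      evB B x (d i) (fun J => g ⟨i, J⟩) := fun g i => rfl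
  have hsurj : LinearMap.range E = ⊤ := by
    rw [LinearMap.range_eq_top]
    intro y
    have hy : ∀ i, ∃ g : Sym (Fin (N + 1)) (d i) → B, evB B x (d i) g = y i := fun i => (y i).2
    choose g hg using hy
    refine ⟨fun s => g s.1 s.2, ?_⟩
    funext i
    apply Subtype.ext
    rw [hE]
    exact hg i
  have hker : LinearMap.ker Θ ≤ LinearMap.ker E := by
    intro g hg
    rw [LinearMap.mem_ker] at hg ⊢
    funext i
    apply Subtype.ext
    rw [hE]
    exact h g hg i
  have h1 := LinearMap.finrank_range_add_finrank_ker Θ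
  have h2 := LinearMap.finrank_range_add_finrank_ker E
  have h3 : Module.finrank B (LinearMap.ker Θ) ≤ Module.finrank B (LinearMap.ker E) :=
    Submodule.finrank_mono hker
  have h4 : Module.finrank B (LinearMap.range Θ) ≤ Fintype.card κ := by
    have := Submodule.finrank_le (LinearMap.range Θ)
    rwa [Module.finrank_pi] at this
  have h5 : Module.finrank B (LinearMap.range E) =
      ∑ i, Module.finrank B (LinearMap.range (evB B x (d i))) := by
    rw [hsurj, finrank_top, Module.finrank_pi_fintype]
  omega

end Pool.Agent.Helper64.CI
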